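import Pool.Agent.T6.H77.MS.Cl
import Pool.Agent.Y710.ZS.Tans
import Pool.Agent.Y708.ZO.Tan
import Pool.Agent.Y497.ZO.LogPow

/-!
# From the Zariski closure to the full Lie algebra

If the Zariski closure of the image of an `ℓ`-adic representation contains the symplectic (special
orthogonal) group, then the Lie algebra of the image contains the full symplectic (orthogonal) Lie
algebra.
-/

set_option autoImplicit false
set_option linter.unusedSectionVars false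
set_option linter.style.haveILetI false

open Matrix Filter Topology
open Pool.Agent.W528.ZC Pool.Agent.Y95.MT Pool.Agent.R932
open Pool.Agent.Y142.ZO (IsTangent Skew Near Isom)
open Pool.Agent.Y142.ZI (FullLie)
open Pool.Agent.Y142.ZS (SpLie FullSp Sim)

namespace Pool.Agent.T6.H77.MS

noncomputable section

variable {ℓ : ℕ} [Fact ℓ.Prime] {N : ℕ}

/-- every element of the Lie algebra of the isometry group is a tangent vector of this group -/
theorem exists_seq {J X : Matrix (Fin N) (Fin N) ℚ_[ℓ]} (hd : J.det ≠ 0)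
    (hX : Xᵀ * J = -(J * X)) :
    ∃ g : ℕ → Matrix (Fin N) (Fin N) ℚ_[ℓ], (∀ n, (g n)ᵀ * J * g n = J ∧ (g n).det = 1) ∧
      Tendsto g atTop (𝓝 1) ∧
      Tendsto (fun n => ((ℓ : ℚ_[ℓ]) ^ n)⁻¹ • (g n - 1)) atTop (𝓝 X) := by
  classical
  -- the parameters
  let h : ℕ → ℚ_[ℓ] := fun n => (2 : ℚ_[ℓ])⁻¹ * (ℓ : ℚ_[ℓ]) ^ n
  have hℓ1 : ‖(ℓ : ℚ_[ℓ])‖ < 1 := Padic.norm_p_lt_one
  have hℓ0 : (ℓ : ℚ_[ℓ]) ≠ 0 := by
    exact_mod_cast (Fact.out : ℓ.Prime).ne_zero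
  have hh : Tendsto h atTop (𝓝 0) := by
    have h1 := (tendsto_pow_atTop_nhds_zero_of_norm_lt_one hℓ1).const_mul ((2 : ℚ_[ℓ])⁻¹)
    rwa [mul_zero] at h1
  let A : ℕ → Matrix (Fin N) (Fin N) ℚ_[ℓ] := fun n => 1 - h n • X
  let D : ℕ → Matrix (Fin N) (Fin N) ℚ_[ℓ] := fun n => 1 + h n • X
  have hA : Tendsto A atTop (𝓝 1) := by
    have h1 : Tendsto (fun n => (1 : Matrix (Fin N) (Fin N) ℚ_[ℓ]) - h n • X) atTop
        (𝓝 (1 - (0 : ℚ_[ℓ]) • X)) := tendsto_const_nhds.sub (hh.smul_const X)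
    rwa [zero_smul, sub_zero] at h1
  have hD : Tendsto D atTop (𝓝 1) := by
    have h1 : Tendsto (fun n => (1 : Matrix (Fin N) (Fin N) ℚ_[ℓ]) + h n • X) atTop
        (𝓝 (1 + (0 : ℚ_[ℓ]) • X)) := tendsto_const_nhds.add (hh.smul_const X)
    rwa [zero_smul, add_zero] at h1
  have hdet : Tendsto (fun n => (A n).det) atTop (𝓝 1) := tendsto_det hA
  have hinv : Tendsto (fun n => (A n)⁻¹) atTop (𝓝 1) := tendsto_inv hA
  have hne : ∀ᶠ n in atTop, (A n).det ≠ 0 := hdet.eventually_ne one_ne_zero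
  let g : ℕ → Matrix (Fin N) (Fin N) ℚ_[ℓ] := fun n =>
    if (A n).det ≠ 0 then D n * (A n)⁻¹ else 1
  have hgeq : ∀ n, (A n).det ≠ 0 → g n = D n * (A n)⁻¹ := fun n hn => if_pos hn
  have h1' : ∀ n, (D n)ᵀ * J = J * A n := by
    intro n
    show (1 + h n • X)ᵀ * J = J * (1 - h n • X)
    rw [transpose_add, transpose_one, transpose_smul, Matrix.add_mul, Matrix.one_mul,
      Matrix.smul_mul, hX, Matrix.mul_sub, Matrix.mul_one, Matrix.mul_smul, smul_neg,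
      sub_eq_add_neg]
  have h2' : ∀ n, (A n)ᵀ * J = J * D n := by
    intro n
    show (1 - h n • X)ᵀ * J = J * (1 + h n • X)
    rw [transpose_sub, transpose_one, transpose_smul, Matrix.sub_mul, Matrix.one_mul,
      Matrix.smul_mul, hX, Matrix.mul_add, Matrix.mul_one, Matrix.mul_smul, smul_neg,
      sub_neg_eq_add]
  refine ⟨g, fun n => ?_, ?_, ?_⟩
  · by_cases hn : (A n).det ≠ 0
    · have hu : IsUnit (A n).det := isUnit_iff_ne_zero.2 hn
      have h3 : A n * D n = D n * A n := by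
        show (1 - h n • X) * (1 + h n • X) = (1 + h n • X) * (1 - h n • X)
        exact ((Commute.one_left _).sub_left ((Commute.one_right _).add_right (Commute.refl _))).eq
      have h4 : (D n)ᵀ * J * D n = (A n)ᵀ * J * A n := by
        rw [h1', h2', Matrix.mul_assoc, h3, Matrix.mul_assoc]
      rw [hgeq n hn]
      constructor
      · calc (D n * (A n)⁻¹)ᵀ * J * (D n * (A n)⁻¹)
            = ((A n)⁻¹)ᵀ * ((D n)ᵀ * J * D n) * (A n)⁻¹ := by
              rw [transpose_mul]; simp only [Matrix.mul_assoc]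
          _ = ((A n)⁻¹)ᵀ * ((A n)ᵀ * J * A n) * (A n)⁻¹ := by rw [h4]
          _ = (A n * (A n)⁻¹)ᵀ * J * (A n * (A n)⁻¹) := by
              rw [transpose_mul]; simp only [Matrix.mul_assoc]
          _ = J := by
              rw [Matrix.mul_nonsing_inv _ hu, transpose_one, Matrix.one_mul, Matrix.mul_one]
      · have h5 : (D n).det = (A n).det := by
          have h6 := congrArg Matrix.det (h1' n)
          rw [Matrix.det_mul, Matrix.det_mul, Matrix.det_transpose, mul_comm J.det] at h6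
          exact mul_right_cancel₀ hd h6
        rw [Matrix.det_mul, h5, ← Matrix.det_mul, Matrix.mul_nonsing_inv _ hu, Matrix.det_one]
    · have h3 : g n = 1 := if_neg hn
      rw [h3, Matrix.transpose_one, Matrix.one_mul, Matrix.mul_one, Matrix.det_one]
      exact ⟨rfl, rfl⟩
  · have h1 : Tendsto (fun n => D n * (A n)⁻¹) atTop (𝓝 (1 * 1)) := hD.mul hinv
    rw [one_mul] at h1
    refine h1.congr' ?_
    filter_upwards [hne] with n hn
    exact (hgeq n hn).symm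
  · have hlim : Tendsto (fun n => X * (A n)⁻¹) atTop (𝓝 X) := by
      have h1 : Tendsto (fun n => X * (A n)⁻¹) atTop (𝓝 (X * 1)) := tendsto_const_nhds.mul hinv
      rwa [mul_one] at h1
    refine hlim.congr' ?_
    filter_upwards [hne] with n hn
    have hu : IsUnit (A n).det := isUnit_iff_ne_zero.2 hn
    have h1 : g n - 1 = ((ℓ : ℚ_[ℓ]) ^ n) • (X * (A n)⁻¹) := by
      have h2 : (1 : Matrix (Fin N) (Fin N) ℚ_[ℓ]) = A n * (A n)⁻¹ :=
        (Matrix.mul_nonsing_inv _ hu).symm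
      have h3 : D n - A n = ((ℓ : ℚ_[ℓ]) ^ n) • X := by
        show (1 + h n • X) - (1 - h n • X) = _
        rw [add_sub_sub_cancel, ← add_smul]
        congr 1
        show (2 : ℚ_[ℓ])⁻¹ * (ℓ : ℚ_[ℓ]) ^ n + (2 : ℚ_[ℓ])⁻¹ * (ℓ : ℚ_[ℓ]) ^ n = _
        ring
      rw [hgeq n hn]
      nth_rewrite 1 [h2]
      rw [← Matrix.sub_mul, h3, Matrix.smul_mul]
    rw [h1, smul_smul, inv_mul_cancel₀ (pow_ne_zero _ hℓ0), one_smul]

/-- the isometry group has no nontrivial exponent -/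
theorem no_torsion {J Z : Matrix (Fin N) (Fin N) ℚ_[ℓ]} (hd : J.det ≠ 0)
    (hZ : Zᵀ * J = -(J * Z)) (hZ0 : Z ≠ 0) {m : ℕ} (hm : 0 < m)
    (H : ∀ h : Matrix (Fin N) (Fin N) ℚ_[ℓ], hᵀ * J * h = J → h.det = 1 → h ^ m = 1) : False := by
  obtain ⟨g, hg, hg1, hgt⟩ := exists_seq hd hZ
  have hu : ∀ n, IsUnit (g n) := fun n => by
    rw [Matrix.isUnit_iff_isUnit_det, (hg n).2]
    exact isUnit_one
  let G := (Matrix (Fin N) (Fin N) ℚ_[ℓ])ˣ
  let r : G →* Matrix (Fin N) (Fin N) ℚ_[ℓ] := Units.coeHom _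
  have hnear : ∀ᶠ n in atTop, Near ℓ (g n) := by
    show ∀ᶠ n in atTop, ∀ i j, ‖(g n - 1) i j‖ ≤ ((ℓ : ℝ) ^ 2)⁻¹
    rw [eventually_all]
    intro i
    rw [eventually_all]
    intro j
    have h1 : Tendsto (fun n => ‖(g n - 1) i j‖) atTop (𝓝 0) := by
      have h2 : Tendsto (fun n => g n - 1) atTop (𝓝 (1 - 1)) := hg1.sub_const 1
      rw [sub_self] at h2
      have h3 := ((continuous_apply_apply (ρ := fun _ _ => ℚ_[ℓ]) i j).tendsto
        (0 : Matrix (Fin N) (Fin N) ℚ_[ℓ])).comp h2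
      have h4 := h3.norm
      simp only [Matrix.zero_apply, norm_zero] at h4
      exact h4
    have h5 : (0 : ℝ) < ((ℓ : ℝ) ^ 2)⁻¹ := by
      have : (0 : ℝ) < (ℓ : ℝ) := by exact_mod_cast (Fact.out : ℓ.Prime).pos
      positivity
    exact (h1.eventually_lt_const h5).mono fun n hn => hn.le
  have h1 : ∀ᶠ n in atTop, ((ℓ : ℚ_[ℓ]) ^ n)⁻¹ • (g n - 1) = 0 := by
    filter_upwards [hnear] with n hn
    have h2 := (Pool.Agent.Y497.ZO.log ℓ N G r (hu n).unit hn).2 m hm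
    have h3 : g n = 1 := by
      apply Matrix.toLin'.injective
      refine LinearMap.ext fun x => ?_
      rw [Matrix.toLin'_apply, Matrix.toLin'_apply, Matrix.one_mulVec]
      refine h2 x ?_
      rw [map_pow]
      have h4 : r (hu n).unit = g n := rfl
      rw [h4, H _ (hg n).1 (hg n).2, Matrix.one_mulVec]
    rw [h3, sub_self, smul_zero]
  have h2 : Tendsto (fun n => ((ℓ : ℚ_[ℓ]) ^ n)⁻¹ • (g n - 1)) atTop (𝓝 0) :=
    tendsto_const_nhds.congr' (h1.mono fun n hn => hn.symm)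
  haveI : T2Space (Matrix (Fin N) (Fin N) ℚ_[ℓ]) :=
    inferInstanceAs (T2Space (Fin N → Fin N → ℚ_[ℓ]))
  exact hZ0 (tendsto_nhds_unique hgt h2)

section gen

variable {k R : Type} [Field k] [CommRing R] [Algebra k R]

/-- the generic matrix -/
def gen (k : Type) [Field k] (N : ℕ) : Matrix (Fin N) (Fin N) (MvPolynomial (Fin N × Fin N) k) :=
  Matrix.of fun i j => MvPolynomial.X (i, j)

theorem gen_map (g : Matrix (Fin N) (Fin N) R) :
    (MvPolynomial.aeval (R := k) (fun q : Fin N × Fin N => g q.1 q.2)).mapMatrix (gen k N) = g := by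
  ext i j
  simp [gen]

theorem gen_pow (g : Matrix (Fin N) (Fin N) R) (m : ℕ) (i j : Fin N) :
    MvPolynomial.aeval (R := k) (fun q : Fin N × Fin N => g q.1 q.2) ((gen k N ^ m) i j) =
      (g ^ m) i j := by
  have h1 : ((MvPolynomial.aeval (R := k) (fun q : Fin N × Fin N => g q.1 q.2)).mapMatrix
      (gen k N)) ^ m = g ^ m := by rw [gen_map]
  rw [← map_pow] at h1
  exact congrFun (congrFun h1 i) j

end gen

section

variable {Γ : Type} [Group Γ] {ρ : Γ →* Matrix (Fin N) (Fin N) ℚ_[ℓ]}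

/-- the tangent space is stable under the Zariski closure -/
theorem ad_mem {J : Matrix (Fin N) (Fin N) ℚ_[ℓ]} (hd : J.det ≠ 0)
    (hsim : ∀ s, ∃ c : ℚ_[ℓ], (ρ s)ᵀ * J * ρ s = c • J) {X h : Matrix (Fin N) (Fin N) ℚ_[ℓ]}
    (hX : IsTangent ℓ ρ X) (hh : hᵀ * J * h = J) (hdet : h.det = 1) (hin : InCl ρ h) :
    IsTangent ℓ ρ (h * X * h⁻¹) := by
  obtain ⟨𝔤, h𝔤, -, hconj, -⟩ := Pool.Agent.Y708.ZO.t ℓ N Γ ρ
  rw [← h𝔤] at hX ⊢
  by_contra hcon
  obtain ⟨φ, hφ, hφL⟩ := Submodule.exists_le_ker_of_notMem hcon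
  have hu : IsUnit J.det := isUnit_iff_ne_zero.2 hd
  let b : Matrix (Fin N) (Fin N) ℚ_[ℓ] →ₗ[ℚ_[ℓ]] Matrix (Fin N) (Fin N) ℚ_[ℓ] →ₗ[ℚ_[ℓ]] ℚ_[ℓ] :=
    LinearMap.mk₂ ℚ_[ℓ] (fun g g' => φ (g * (X * J⁻¹) * (g'ᵀ * J)))
      (fun g₁ g₂ g' => by rw [Matrix.add_mul, Matrix.add_mul, map_add])
      (fun c g g' => by rw [Matrix.smul_mul, Matrix.smul_mul, map_smul])
      (fun g g₁ g₂ => by rw [Matrix.transpose_add, Matrix.add_mul, Matrix.mul_add, map_add])
      (fun c g g' => by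
        rw [Matrix.transpose_smul, Matrix.smul_mul, Matrix.mul_smul, map_smul])
  have hb : ∀ g, b g g = φ (g * (X * J⁻¹) * (gᵀ * J)) := fun g => rfl
  obtain ⟨f, hf, -⟩ := exists_quad b
  have h1 : ∀ s, MvPolynomial.aeval (fun q => ρ s q.1 q.2) f = 0 := by
    intro s
    have h2 : ev (ρ s) f = φ (ρ s * (X * J⁻¹) * ((ρ s)ᵀ * J)) := by rw [hf, hb]
    obtain ⟨c, hc⟩ := hsim s
    have h3 : J⁻¹ * ((ρ s)ᵀ * J) = c • ρ s⁻¹ := by
      have h4 : ρ s * ρ s⁻¹ = 1 := by rw [← map_mul, mul_inv_cancel, map_one]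
      calc J⁻¹ * ((ρ s)ᵀ * J) = J⁻¹ * ((ρ s)ᵀ * J) * (ρ s * ρ s⁻¹) := by rw [h4, mul_one]
        _ = J⁻¹ * ((ρ s)ᵀ * J * ρ s) * ρ s⁻¹ := by simp only [Matrix.mul_assoc]
        _ = c • ρ s⁻¹ := by
            rw [hc, Matrix.mul_smul, Matrix.nonsing_inv_mul _ hu, Matrix.smul_mul, one_mul]
    have h5 : ρ s * (X * J⁻¹) * ((ρ s)ᵀ * J) = c • (ρ s * X * ρ s⁻¹) := by
      calc ρ s * (X * J⁻¹) * ((ρ s)ᵀ * J) = ρ s * X * (J⁻¹ * ((ρ s)ᵀ * J)) := by
            simp only [Matrix.mul_assoc]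
        _ = c • (ρ s * X * ρ s⁻¹) := by rw [h3, Matrix.mul_smul]
    show ev (ρ s) f = 0
    rw [h2, h5, map_smul]
    have h6 : φ (ρ s * X * ρ s⁻¹) = 0 := hφL (hconj s X hX)
    rw [h6, smul_zero]
  have h2 : ev h f = 0 := hin f h1
  rw [hf, hb] at h2
  have h3 : J⁻¹ * (hᵀ * J) = h⁻¹ := by
    have hv : IsUnit h.det := by rw [hdet]; exact isUnit_one
    calc J⁻¹ * (hᵀ * J) = J⁻¹ * (hᵀ * J) * (h * h⁻¹) := by
          rw [Matrix.mul_nonsing_inv _ hv, mul_one]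
      _ = J⁻¹ * (hᵀ * J * h) * h⁻¹ := by simp only [Matrix.mul_assoc]
      _ = h⁻¹ := by rw [hh, Matrix.nonsing_inv_mul _ hu, one_mul]
  have h4 : h * (X * J⁻¹) * (hᵀ * J) = h * X * h⁻¹ := by
    calc h * (X * J⁻¹) * (hᵀ * J) = h * X * (J⁻¹ * (hᵀ * J)) := by simp only [Matrix.mul_assoc]
      _ = h * X * h⁻¹ := by rw [h3]
  rw [h4] at h2
  exact hφ h2

/-- the tangent space is stable under brackets with the Lie algebra of the isometry group -/
theorem br_mem {J : Matrix (Fin N) (Fin N) ℚ_[ℓ]} (hd : J.det ≠ 0)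
    (hsim : ∀ s, ∃ c : ℚ_[ℓ], (ρ s)ᵀ * J * ρ s = c • J)
    (H : ∀ h : Matrix (Fin N) (Fin N) ℚ_[ℓ], hᵀ * J * h = J → h.det = 1 → InCl ρ h)
    {Z X : Matrix (Fin N) (Fin N) ℚ_[ℓ]} (hZ : Zᵀ * J = -(J * Z)) (hX : IsTangent ℓ ρ X) :
    IsTangent ℓ ρ (Z * X - X * Z) := by
  obtain ⟨g, hg, hg1, hgt⟩ := exists_seq hd hZ
  obtain ⟨𝔤, h𝔤, -, -, -⟩ := Pool.Agent.Y708.ZO.t ℓ N Γ ρ
  haveI : T2Space (Matrix (Fin N) (Fin N) ℚ_[ℓ]) :=
    inferInstanceAs (T2Space (Fin N → Fin N → ℚ_[ℓ]))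
  have hcl : IsClosed (𝔤 : Set (Matrix (Fin N) (Fin N) ℚ_[ℓ])) :=
    Submodule.closed_of_finiteDimensional 𝔤
  rw [← h𝔤]
  have hinv : Tendsto (fun n => (g n)⁻¹) atTop (𝓝 1) := tendsto_inv hg1
  have hlim : Tendsto (fun n => ((((ℓ : ℚ_[ℓ]) ^ n)⁻¹ • (g n - 1)) * X -
      X * (((ℓ : ℚ_[ℓ]) ^ n)⁻¹ • (g n - 1))) * (g n)⁻¹) atTop (𝓝 ((Z * X - X * Z) * 1)) :=
    ((hgt.mul_const X).sub (hgt.const_mul X)).mul hinv
  rw [mul_one] at hlim
  refine hcl.mem_of_tendsto hlim (Eventually.of_forall fun n => ?_)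
  have hv : IsUnit (g n).det := by rw [(hg n).2]; exact isUnit_one
  have h1 : ((((ℓ : ℚ_[ℓ]) ^ n)⁻¹ • (g n - 1)) * X -
      X * (((ℓ : ℚ_[ℓ]) ^ n)⁻¹ • (g n - 1))) * (g n)⁻¹ =
      ((ℓ : ℚ_[ℓ]) ^ n)⁻¹ • (g n * X * (g n)⁻¹ - X) := by
    have h2 : g n * X * (g n)⁻¹ - X = ((g n - 1) * X - X * (g n - 1)) * (g n)⁻¹ := by
      have h3 : (g n - 1) * X - X * (g n - 1) = g n * X - X * g n := by noncomm_ring
      rw [h3, Matrix.sub_mul, Matrix.mul_assoc X, Matrix.mul_nonsing_inv _ hv, mul_one]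
    rw [h2, Matrix.smul_mul, Matrix.mul_smul, ← smul_sub, Matrix.smul_mul]
  rw [h1]
  refine 𝔤.smul_mem _ (𝔤.sub_mem ?_ ((h𝔤 X).2 hX))
  rw [h𝔤]
  exact ad_mem hd hsim hX (hg n).1 (hg n).2 (H _ (hg n).1 (hg n).2)

/-- an exponent for an open subgroup -/
theorem exists_exp {Γ : Type} [Group Γ] [TopologicalSpace Γ] [IsTopologicalGroup Γ]
    [CompactSpace Γ] {U : Subgroup Γ} (hU : IsOpen (U : Set Γ)) :
    ∃ m : ℕ, 0 < m ∧ ∀ s : Γ, s ^ m ∈ U := by
  haveI : Finite (Γ ⧸ U) := Subgroup.quotient_finite_of_isOpen U hU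
  haveI : U.FiniteIndex := Subgroup.finiteIndex_of_finite_quotient
  haveI : U.normalCore.FiniteIndex := inferInstance
  refine ⟨U.normalCore.index, Nat.pos_of_ne_zero Subgroup.FiniteIndex.index_ne_zero, fun s => ?_⟩
  exact U.normalCore_le (Subgroup.pow_index_mem U.normalCore s)

end

section

variable {Γ : Type} [Group Γ] [TopologicalSpace Γ] [IsTopologicalGroup Γ] [CompactSpace Γ]
  {ρ : Γ →* Matrix (Fin N) (Fin N) ℚ_[ℓ]}

/-- **the orthogonal case** -/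
theorem fullLie_of_cl (hρ : Continuous ρ) {B : Matrix (Fin N) (Fin N) ℚ_[ℓ]} (hB : Bᵀ = B)
    (hd : B.det ≠ 0) (h5 : 5 ≤ N) (hiso : ∀ s, (ρ s)ᵀ * B * ρ s = B)
    (H : ∀ h : Matrix (Fin N) (Fin N) ℚ_[ℓ], hᵀ * B * h = B → h.det = 1 → InCl ρ h) :
    FullLie ℓ ρ B := by
  intro X hX
  have hsk : ∀ Y : Matrix (Fin N) (Fin N) ℚ_[ℓ], Skew B Y ↔ Yᵀ * B = -(B * Y) := by
    intro Y
    unfold Skew
    rw [Matrix.transpose_mul, hB]
  have hsk2 : ∀ Y : Matrix (Fin N) (Fin N) ℚ_[ℓ], Yᵀ * B + B * Y = 0 → Yᵀ * B = -(B * Y) :=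
    fun Y hY => eq_neg_of_add_eq_zero_left hY
  have hsk3 : ∀ Y : Matrix (Fin N) (Fin N) ℚ_[ℓ], Yᵀ * B = -(B * Y) → Yᵀ * B + B * Y = 0 :=
    fun Y hY => by rw [hY, neg_add_cancel]
  have hsim : ∀ s, ∃ c : ℚ_[ℓ], (ρ s)ᵀ * B * ρ s = c • B := fun s => ⟨1, by
    rw [one_smul, hiso]⟩
  obtain ⟨𝔤, h𝔤, -, -, hskew⟩ := Pool.Agent.Y708.ZO.t ℓ N Γ ρ
  have hskew' := hskew B hB hiso
  by_cases h0 : ∃ Z ∈ 𝔤, Z ≠ 0
  · obtain ⟨Z, hZ, hZ0⟩ := h0
    rw [← h𝔤]
    refine so_ideal hB hd h5 𝔤 ?_ hZ (hsk3 _ ((hsk Z).1 (hskew' Z hZ))) hZ0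
      (hsk3 _ ((hsk X).1 hX))
    intro Y hY W hW
    rw [h𝔤] at hW ⊢
    exact br_mem hd hsim H (hsk2 Y hY) hW
  · exfalso
    push Not at h0
    obtain ⟨U, hU, hUρ⟩ := Pool.Agent.Y497.ZO.exp ℓ N Γ ρ hρ ⊥ ⊤ bot_le (by
      intro Y hY w _
      rw [h0 Y ((h𝔤 Y).2 hY), Matrix.zero_mulVec]
      exact Submodule.zero_mem _)
    have h1 : ∀ σ ∈ U, ρ σ = 1 := by
      intro σ hσ
      apply Matrix.toLin'.injective
      refine LinearMap.ext fun x => ?_
      rw [Matrix.toLin'_apply, Matrix.toLin'_apply, Matrix.one_mulVec]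
      have h2 := hUρ σ hσ x Submodule.mem_top
      rw [Submodule.mem_bot] at h2
      exact sub_eq_zero.1 h2
    obtain ⟨m, hm, hmU⟩ := exists_exp hU
    -- a nonzero element of the Lie algebra
    have hi : (⟨0, by omega⟩ : Fin N) ≠ ⟨1, by omega⟩ := by
      intro h
      exact absurd (congrArg Fin.val h) (by norm_num)
    set a : Fin N := ⟨0, by omega⟩ with ha
    set b : Fin N := ⟨1, by omega⟩ with hb
    let E : Matrix (Fin N) (Fin N) ℚ_[ℓ] := Matrix.single a b 1 - Matrix.single b a 1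
    have hu : IsUnit B.det := isUnit_iff_ne_zero.2 hd
    have hBE : B * (B⁻¹ * E) = E := by
      rw [← mul_assoc, Matrix.mul_nonsing_inv _ hu, one_mul]
    refine no_torsion (J := B) (Z := B⁻¹ * E) hd ?_ ?_ hm ?_
    · have h3 : Skew B (B⁻¹ * E) := by
        unfold Skew
        rw [hBE]
        show (Matrix.single a b 1 - Matrix.single b a 1)ᵀ =
          -(Matrix.single a b 1 - Matrix.single b a 1)
        rw [Matrix.transpose_sub, Matrix.transpose_single, Matrix.transpose_single, neg_sub]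
      exact (hsk _).1 h3
    · intro h3
      have h4 : E = 0 := by rw [← hBE, h3, mul_zero]
      have h5 := congrFun (congrFun h4 a) b
      have h6 : E a b = 1 := by
        show (Matrix.single a b (1 : ℚ_[ℓ]) - Matrix.single b a 1 :
          Matrix (Fin N) (Fin N) ℚ_[ℓ]) a b = 1
        rw [Matrix.sub_apply, Matrix.single_apply_same, Matrix.single_apply_of_row_ne
          (fun h => hi h.symm), sub_zero]
      rw [h6] at h5
      exact one_ne_zero h5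
    · intro h hh hdet
      have h3 := H h hh hdet
      ext i j
      have h4 := h3 ((gen ℚ_[ℓ] N ^ m) i j - MvPolynomial.C ((1 : Matrix _ _ ℚ_[ℓ]) i j)) (by
        intro s
        rw [map_sub, gen_pow, MvPolynomial.aeval_C]
        have h5 : (ρ s) ^ m = 1 := by rw [← map_pow, h1 _ (hmU s)]
        rw [h5]
        exact sub_self _)
      rw [map_sub, gen_pow, MvPolynomial.aeval_C] at h4
      exact sub_eq_zero.1 h4

/-- **the symplectic case** -/
theorem fullSp_of_cl (hρ : Continuous ρ) {J : Matrix (Fin N) (Fin N) ℚ_[ℓ]} (hJ : Jᵀ = -J)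
    (hd : J.det ≠ 0) (hsim : ∀ s, ∃ c : ℚ_[ℓ], (ρ s)ᵀ * J * ρ s = c • J)
    (H : ∀ h : Matrix (Fin N) (Fin N) ℚ_[ℓ], hᵀ * J * h = J → h.det = 1 → InCl ρ h) :
    FullSp ℓ ρ J := by
  intro X hX
  have hsk2 : ∀ Y : Matrix (Fin N) (Fin N) ℚ_[ℓ], Yᵀ * J + J * Y = 0 → Yᵀ * J = -(J * Y) :=
    fun Y hY => eq_neg_of_add_eq_zero_left hY
  obtain ⟨𝔤, h𝔤, -, -, -⟩ := Pool.Agent.Y708.ZO.t ℓ N Γ ρ
  by_cases h0 : ∃ Z ∈ 𝔤, Zᵀ * J + J * Z = 0 ∧ Z ≠ 0
  · obtain ⟨Z, hZ, hZs, hZ0⟩ := h0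
    rw [← h𝔤]
    refine sp_ideal hJ hd 𝔤 ?_ hZ hZs hZ0 hX
    intro Y hY W hW
    rw [h𝔤] at hW ⊢
    exact br_mem hd hsim H (hsk2 Y hY) hW
  · push Not at h0
    by_cases hN : N = 0
    · subst hN
      have h1 : X = 0 := by
        ext i
        exact i.elim0
      rw [h1, ← h𝔤]
      exact Submodule.zero_mem _
    exfalso
    -- the tangent vectors commute with the symplectic Lie algebra
    have hcomm : ∀ Y ∈ 𝔤, ∀ Z, Zᵀ * J + J * Z = 0 → Z * Y = Y * Z := by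
      intro Y hY Z hZ
      obtain ⟨μ, hμ⟩ := Pool.Agent.Y710.ZS.t1 ℓ N Γ ρ J hd hsim Y ((h𝔤 Y).1 hY)
      have h1 : Z * Y - Y * Z ∈ 𝔤 := by
        rw [h𝔤]
        exact br_mem hd hsim H (hsk2 Z hZ) ((h𝔤 Y).1 hY)
      have hYt : Yᵀ * J = μ • J - J * Y := by rw [← hμ]; abel
      have hZt := hsk2 Z hZ
      have h2 : (Z * Y - Y * Z)ᵀ * J + J * (Z * Y - Y * Z) = 0 := by
        have e1 : (Z * Y)ᵀ * J = Yᵀ * (Zᵀ * J) := by rw [Matrix.transpose_mul, Matrix.mul_assoc]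
        have e2 : (Y * Z)ᵀ * J = Zᵀ * (Yᵀ * J) := by rw [Matrix.transpose_mul, Matrix.mul_assoc]
        have e3 : Yᵀ * (J * Z) = μ • (J * Z) - J * Y * Z := by
          rw [← Matrix.mul_assoc, hYt, Matrix.sub_mul, Matrix.smul_mul]
        have e4 : Zᵀ * (J * Y) = -(J * Z * Y) := by
          rw [← Matrix.mul_assoc, hZt, Matrix.neg_mul]
        rw [Matrix.transpose_sub, Matrix.sub_mul, e1, e2, hZt, hYt, Matrix.mul_neg, e3,
          Matrix.mul_sub, Matrix.mul_smul, hZt, e4, Matrix.mul_sub, ← Matrix.mul_assoc,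
          ← Matrix.mul_assoc, smul_neg]
        abel
      have h3 := h0 _ h1 h2
      exact sub_eq_zero.1 h3
    -- every vector is an eigenvector of the tangent vectors
    have heig : ∀ Y ∈ 𝔤, ∀ v : Fin N → ℚ_[ℓ], ∃ c : ℚ_[ℓ], Y *ᵥ v = c • v := by
      intro Y hY v
      by_cases hv : v = 0
      · exact ⟨0, by rw [hv, Matrix.mulVec_zero, smul_zero]⟩
      have h1 := hcomm Y hY _ (ev1_skew hJ v)
      have hJv : J *ᵥ v ≠ 0 := fun h => hv (Matrix.eq_zero_of_mulVec_eq_zero hd h)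
      obtain ⟨i, hi⟩ : ∃ i, (J *ᵥ v) i ≠ 0 := by
        by_contra h
        push Not at h
        exact hJv (funext h)
      have h2 := congrArg (fun M => M *ᵥ (Pi.single i (1 : ℚ_[ℓ]))) h1
      unfold ev1 at h2
      rw [← Matrix.mulVec_mulVec, ← Matrix.mulVec_mulVec, Matrix.vecMulVec_mulVec,
        Matrix.vecMulVec_mulVec, dotProduct_single_one] at h2
      refine ⟨((J *ᵥ v) i)⁻¹ * ((J *ᵥ v) ⬝ᵥ Y *ᵥ Pi.single i 1), ?_⟩
      have h3 : ∀ (t : ℚ_[ℓ]) (w : Fin N → ℚ_[ℓ]), MulOpposite.op t • w = t • w := by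
        intro t w
        funext i
        simp [mul_comm]
      rw [h3, h3, Matrix.mulVec_smul] at h2
      rw [mul_smul, h2, smul_smul, inv_mul_cancel₀ hi, one_smul]
    -- an open subgroup acts by scalars
    have hex : ∀ pq : Fin N × Fin N, ∃ U : Subgroup Γ, IsOpen (U : Set Γ) ∧ ∀ σ ∈ U, ∃ c : ℚ_[ℓ],
        ρ σ *ᵥ (Pi.single pq.1 1 + Pi.single pq.2 1) =
          c • (Pi.single pq.1 1 + Pi.single pq.2 1) := by
      intro pq
      let v : Fin N → ℚ_[ℓ] := Pi.single pq.1 1 + Pi.single pq.2 1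
      obtain ⟨U, hU, hUρ⟩ := Pool.Agent.Y497.ZO.exp ℓ N Γ ρ hρ (Submodule.span ℚ_[ℓ] {v})
        (Submodule.span ℚ_[ℓ] {v}) le_rfl (by
        intro Y hY w hw
        obtain ⟨c, rfl⟩ := Submodule.mem_span_singleton.1 hw
        obtain ⟨d, hd'⟩ := heig Y ((h𝔤 Y).2 hY) v
        rw [Matrix.mulVec_smul, hd', smul_smul]
        exact Submodule.smul_mem _ _ (Submodule.mem_span_singleton_self v))
      refine ⟨U, hU, fun σ hσ => ?_⟩
      obtain ⟨c, hc⟩ := Submodule.mem_span_singleton.1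
        (hUρ σ hσ v (Submodule.mem_span_singleton_self v))
      refine ⟨c + 1, ?_⟩
      show ρ σ *ᵥ v = (c + 1) • v
      rw [add_smul, one_smul, hc, sub_add_cancel]
    choose Up hUp hUps using hex
    let U : Subgroup Γ := ⨅ pq, Up pq
    have hU : IsOpen (U : Set Γ) := by
      have h1 : (U : Set Γ) = ⋂ pq, (Up pq : Set Γ) := Subgroup.coe_iInf
      rw [h1]
      exact isOpen_iInter_of_finite hUp
    have hsc : ∀ σ ∈ U, (∀ i j, i ≠ j → (ρ σ) i j = 0) ∧ ∀ i j, (ρ σ) i i = (ρ σ) j j := by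
      intro σ hσ
      have hσ' : ∀ pq, σ ∈ Up pq := fun pq => (Subgroup.mem_iInf.1 hσ) pq
      have h1 : ∀ i j, i ≠ j → (ρ σ) i j = 0 := by
        intro i j hij
        obtain ⟨c, hc⟩ := hUps (j, j) σ (hσ' _)
        have h2 := congrFun hc i
        simp only [Matrix.mulVec_add, Matrix.mulVec_single_one, Pi.add_apply, Pi.smul_apply,
          Matrix.col_apply, Pi.single_eq_of_ne hij, add_zero, smul_zero] at h2
        have h3 : (2 : ℚ_[ℓ]) * (ρ σ) i j = 0 := by rw [two_mul]; exact h2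
        exact (mul_eq_zero.1 h3).resolve_left two_ne_zero
      refine ⟨h1, fun i j => ?_⟩
      by_cases hij : i = j
      · rw [hij]
      obtain ⟨c, hc⟩ := hUps (i, j) σ (hσ' _)
      have h2 := congrFun hc i
      have h3 := congrFun hc j
      simp only [Matrix.mulVec_add, Matrix.mulVec_single_one, Pi.add_apply, Pi.smul_apply,
        Matrix.col_apply, Pi.single_eq_of_ne hij, Pi.single_eq_of_ne (Ne.symm hij),
        Pi.single_eq_same, h1 i j hij, h1 j i (Ne.symm hij), add_zero, zero_add] at h2 h3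
      rw [h2, h3]
    obtain ⟨m, hm, hmU⟩ := exists_exp hU
    haveI : NeZero N := ⟨hN⟩
    have hv0 : (Pi.single (0 : Fin N) (1 : ℚ_[ℓ]) : Fin N → ℚ_[ℓ]) ≠ 0 := by
      intro h
      have := congrFun h 0
      rw [Pi.single_eq_same] at this
      exact one_ne_zero this
    set v₀ : Fin N → ℚ_[ℓ] := Pi.single (0 : Fin N) (1 : ℚ_[ℓ]) with hv₀
    refine no_torsion (J := J) (Z := ev1 J v₀) hd (hsk2 _ (ev1_skew hJ v₀)) ?_
      (m := m * 2) (by omega) ?_
    · intro h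
      have hJv : J *ᵥ v₀ ≠ 0 := fun h => hv0 (Matrix.eq_zero_of_mulVec_eq_zero hd h)
      apply hJv
      funext i
      have h2 := congrFun (congrFun h 0) i
      unfold ev1 at h2
      rw [vecMulVec_apply, hv₀, Pi.single_eq_same, one_mul] at h2
      exact h2
    · intro h hh hdet
      have h3 := H h hh hdet
      have hoff : ∀ i j, i ≠ j → (h ^ m) i j = 0 := by
        intro i j hij
        have h4 := h3 ((gen ℚ_[ℓ] N ^ m) i j) (by
          intro s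
          rw [gen_pow, ← map_pow]
          exact (hsc _ (hmU s)).1 i j hij)
        rwa [gen_pow] at h4
      have hdiag : ∀ i j, (h ^ m) i i = (h ^ m) j j := by
        intro i j
        have h4 := h3 ((gen ℚ_[ℓ] N ^ m) i i - (gen ℚ_[ℓ] N ^ m) j j) (by
          intro s
          rw [map_sub, gen_pow, gen_pow, ← map_pow]
          exact sub_eq_zero.2 ((hsc _ (hmU s)).2 i j))
        rw [map_sub, gen_pow, gen_pow] at h4
        exact sub_eq_zero.1 h4
      obtain ⟨c, hc⟩ : ∃ c, c = (h ^ m) 0 0 := ⟨_, rfl⟩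
      have h4 : h ^ m = c • (1 : Matrix (Fin N) (Fin N) ℚ_[ℓ]) := by
        ext i j
        rw [Matrix.smul_apply, Matrix.one_apply]
        by_cases hij : i = j
        · subst hij
          rw [if_pos rfl, hdiag i 0, hc]
          simp
        · rw [if_neg hij, hoff i j hij]
          simp
      have h5 : ∀ k : ℕ, (h ^ k)ᵀ * J * h ^ k = J := by
        intro k
        induction k with
        | zero => rw [pow_zero, Matrix.transpose_one, one_mul, mul_one]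
        | succ k ih =>
          rw [pow_succ, Matrix.transpose_mul]
          calc hᵀ * (h ^ k)ᵀ * J * (h ^ k * h) = hᵀ * ((h ^ k)ᵀ * J * h ^ k) * h := by
                simp only [Matrix.mul_assoc]
            _ = J := by rw [ih, hh]
      have h6 := h5 m
      rw [h4, Matrix.transpose_smul, Matrix.transpose_one, Matrix.smul_mul, one_mul,
        Matrix.mul_smul, mul_one, smul_smul] at h6
      have h7 : c * c = 1 := by
        have hJ0 : J ≠ 0 := by
          intro h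
          apply hd
          rw [h]
          exact Matrix.det_zero
        have h8 : (c * c - 1) • J = 0 := by rw [sub_smul, one_smul, h6, sub_self]
        rcases smul_eq_zero.1 h8 with h9 | h9
        · exact sub_eq_zero.1 h9
        · exact absurd h9 hJ0
      rw [pow_mul, h4, sq, Matrix.smul_mul, one_mul, smul_smul, h7, one_smul]

end

end

end Pool.Agent.T6.H77.MS
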