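import Pool.Agent.T6.H77.MS.Irr

/-!
# Rational structures of subspaces
-/

set_option autoImplicit false

namespace Pool.Agent.T6.H77.MS

open Polynomial Module TensorProduct Pool.Agent.Y134.TF

/-- A representation `rep` over a field `K₀`, of a subgroup `Γ₀` of the group `Γ`, with an additive map
`j` to the space `T`. -/
structure RatRep (K : Type) [Field K] (T : Type) [AddCommGroup T] (Γ : Type) [Group Γ] where
  /-- the field -/
  K₀ : Type
  [field : Field K₀]
  [algebra : Algebra K₀ K]
  /-- the space -/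
  V : Type
  [addCommGroup : AddCommGroup V]
  [module : Module K₀ V]
  [finite : FiniteDimensional K₀ V]
  /-- the subgroup -/
  Γ₀ : Subgroup Γ
  /-- the representation -/
  rep : Representation K₀ Γ₀ V
  /-- the map -/
  j : V →+ T

attribute [instance] RatRep.field RatRep.algebra RatRep.addCommGroup RatRep.module RatRep.finite

section
variable {K T Γ : Type} [Field K] [AddCommGroup T] [Module K T] [Group Γ]

/-- The subgroup `Γ₀` has finite index in `Γ`, and the map `j` identifies `V ⊗ K` with the subspace `U`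
of `T`, with the action of `Γ₀`. -/
structure RatRep.IsStructure (F : RatRep K T Γ) (τ : Representation K Γ T) (U : Submodule K T) :
    Prop where
  index : F.Γ₀.FiniteIndex
  smul : ∀ (a : F.K₀) (v : F.V), F.j (a • v) = algebraMap F.K₀ K a • F.j v
  span : Submodule.span K (Set.range F.j) = U
  rank : finrank K U = finrank F.K₀ F.V
  equivariant : ∀ (s : F.Γ₀) (v : F.V), τ s (F.j v) = F.j (F.rep s v)

variable {F : RatRep K T Γ} {τ : Representation K Γ T} {U : Submodule K T}

lemma RatRep.IsStructure.mem (h : F.IsStructure τ U) (v : F.V) : F.j v ∈ U := by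
  rw [← h.span]
  exact Submodule.subset_span ⟨v, rfl⟩

lemma RatRep.IsStructure.j_sum (h : F.IsStructure τ U) (v : F.V) :
    F.j v = ∑ i, algebraMap F.K₀ K ((finBasis F.K₀ F.V).repr v i) • F.j (finBasis F.K₀ F.V i) := by
  conv_lhs => rw [← (finBasis F.K₀ F.V).sum_repr v]
  rw [map_sum]
  exact Finset.sum_congr rfl fun i _ => h.smul _ _

lemma RatRep.IsStructure.span_basis (h : F.IsStructure τ U) :
    Submodule.span K (Set.range fun i => F.j (finBasis F.K₀ F.V i)) = U := by
  apply le_antisymm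
  · rw [Submodule.span_le]
    rintro _ ⟨i, rfl⟩
    exact h.mem _
  · rw [← h.span, Submodule.span_le]
    rintro _ ⟨v, rfl⟩
    rw [SetLike.mem_coe, h.j_sum v]
    exact Submodule.sum_mem _ fun i _ => Submodule.smul_mem _ _ (Submodule.subset_span ⟨i, rfl⟩)

/-- **Strong irreducibility.** -/
theorem RatRep.IsStructure.irreducible [CharZero K] [IsAlgClosed K] (h : F.IsStructure τ U)
    {S : Set F.Γ₀} (hS : Patterns K F.rep S) (Δ : Subgroup Γ) (hΔ : Δ.FiniteIndex)
    (P : Submodule K T) (hPU : P ≤ U) (hst : ∀ s ∈ Δ, ∀ x ∈ P, τ s x ∈ P) : P = ⊥ ∨ P = U := by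
  classical
  have : CharZero F.K₀ := (algebraMap F.K₀ K).charZero
  have hΔ₀ : (Δ.subgroupOf F.Γ₀).FiniteIndex := inferInstance
  have hA := hS.opAlg_eq_top hΔ₀
  have hlift : ∀ a ∈ opAlg F.rep (Δ.subgroupOf F.Γ₀), ∃ f : End K T, (∀ x ∈ P, f x ∈ P) ∧
      ∀ v, f (F.j v) = F.j (a v) := by
    intro a ha
    induction ha using Algebra.adjoin_induction with
    | mem x hx =>
      obtain ⟨s, hs, rfl⟩ := hx
      exact ⟨τ s, hst s hs, fun v => h.equivariant s v⟩
    | algebraMap r =>
      refine ⟨algebraMap F.K₀ K r • 1, fun x hx => P.smul_mem _ hx, fun v => ?_⟩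
      rw [LinearMap.smul_apply, Module.End.one_apply, Module.algebraMap_end_apply, h.smul]
    | add x y _ _ hx hy =>
      obtain ⟨f, hf, hf'⟩ := hx
      obtain ⟨g, hg, hg'⟩ := hy
      refine ⟨f + g, fun z hz => P.add_mem (hf z hz) (hg z hz), fun v => ?_⟩
      rw [LinearMap.add_apply, hf', hg', LinearMap.add_apply, map_add]
    | mul x y _ _ hx hy =>
      obtain ⟨f, hf, hf'⟩ := hx
      obtain ⟨g, hg, hg'⟩ := hy
      refine ⟨f * g, fun z hz => hf _ (hg z hz), fun v => ?_⟩
      rw [Module.End.mul_apply, hg', hf', Module.End.mul_apply]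
  by_cases hP : P = ⊥
  · exact Or.inl hP
  right
  refine le_antisymm hPU ?_
  obtain ⟨x, hxP, hx0⟩ := (Submodule.ne_bot_iff _).1 hP
  have hxU : x ∈ Submodule.span K (Set.range fun i => F.j (finBasis F.K₀ F.V i)) := by
    rw [h.span_basis]
    exact hPU hxP
  obtain ⟨c, hc⟩ := (Submodule.mem_span_range_iff_exists_fun K).1 hxU
  have hc0 : ∃ i₀, c i₀ ≠ 0 := by
    by_contra hne
    push Not at hne
    apply hx0
    rw [← hc]
    exact Finset.sum_eq_zero fun i _ => by rw [hne i, zero_smul]
  obtain ⟨i₀, hi₀⟩ := hc0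
  rw [← h.span, Submodule.span_le]
  rintro _ ⟨v, rfl⟩
  let E : End F.K₀ F.V := (finBasis F.K₀ F.V).constr F.K₀ fun i => if i = i₀ then v else 0
  have hE : ∀ i, E (finBasis F.K₀ F.V i) = if i = i₀ then v else 0 :=
    fun i => (finBasis F.K₀ F.V).constr_basis F.K₀ _ i
  obtain ⟨f, hf, hf'⟩ := hlift E (by rw [hA]; exact Algebra.mem_top)
  have h1 := hf x hxP
  have h2 : f x = c i₀ • F.j v := by
    rw [← hc, map_sum, Finset.sum_eq_single i₀]
    · rw [map_smul, hf', hE, if_pos rfl]
    · intro i _ hi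
      rw [map_smul, hf', hE, if_neg hi, map_zero, smul_zero]
    · intro h0
      exact absurd (Finset.mem_univ _) h0
  rw [h2] at h1
  exact (Submodule.smul_mem_iff _ hi₀).1 h1

/-- The roots of the characteristic polynomials are eigenvalues on `U`. -/
theorem RatRep.IsStructure.exists_eigenvector (h : F.IsStructure τ U) (s : F.Γ₀) {a : K}
    (ha : aeval a (F.rep s).charpoly = 0) : ∃ v ∈ U, v ≠ 0 ∧ τ s v = a • v := by
  let b := (finBasis F.K₀ F.V).baseChange K
  let e : K ⊗[F.K₀] F.V →ₗ[K] T := b.constr K fun i => F.j (finBasis F.K₀ F.V i)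
  have he0 : ∀ i, e (1 ⊗ₜ finBasis F.K₀ F.V i) = F.j (finBasis F.K₀ F.V i) := by
    intro i
    have h1 := b.constr_basis K (fun i => F.j (finBasis F.K₀ F.V i)) i
    rw [Basis.baseChange_apply] at h1
    exact h1
  have he : ∀ v, e (1 ⊗ₜ v) = F.j v := by
    intro v
    rw [h.j_sum v]
    have h1 : (1 : K) ⊗ₜ[F.K₀] v = ∑ i, algebraMap F.K₀ K ((finBasis F.K₀ F.V).repr v i) •
        ((1 : K) ⊗ₜ[F.K₀] finBasis F.K₀ F.V i) := by
      conv_lhs => rw [← (finBasis F.K₀ F.V).sum_repr v]
      rw [tmul_sum]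
      refine Finset.sum_congr rfl fun i _ => ?_
      rw [tmul_smul, algebraMap_smul]
    rw [h1, map_sum]
    refine Finset.sum_congr rfl fun i _ => ?_
    rw [map_smul, he0]
  have hrange : LinearMap.range e = U := by
    rw [← h.span_basis]
    exact b.constr_range K
  have hinj : LinearMap.ker e = ⊥ := by
    have h1 := LinearMap.finrank_range_add_finrank_ker e
    rw [hrange, finrank_baseChange, h.rank] at h1
    have h2 : finrank K (LinearMap.ker e) = 0 := by omega
    exact Submodule.finrank_eq_zero.1 h2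
  have heq : ∀ x, τ s (e x) = e ((F.rep s).baseChange K x) := by
    intro x
    induction x using TensorProduct.induction_on with
    | zero => rw [map_zero, map_zero, map_zero, map_zero]
    | tmul a v =>
      have h1 : a ⊗ₜ[F.K₀] v = a • ((1 : K) ⊗ₜ[F.K₀] v) := by
        rw [smul_tmul', smul_eq_mul, mul_one]
      rw [h1, map_smul, map_smul, map_smul, map_smul, LinearMap.baseChange_tmul, he, he,
        h.equivariant]
    | add x y hx hy => rw [map_add, map_add, map_add, map_add, hx, hy]
  have h1 : Module.End.HasEigenvalue ((F.rep s).baseChange K) a := by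
    rw [Module.End.hasEigenvalue_iff_isRoot_charpoly, LinearMap.charpoly_baseChange, IsRoot.def,
      eval_map_algebraMap]
    exact ha
  obtain ⟨x, hx⟩ := h1.exists_hasEigenvector
  refine ⟨e x, ?_, ?_, ?_⟩
  · rw [← hrange]
    exact ⟨x, rfl⟩
  · intro h0
    exact hx.2 ((LinearMap.ker_eq_bot'.1 hinj) x h0)
  · rw [heq, hx.apply_eq_smul, map_smul]

end

end Pool.Agent.T6.H77.MS
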