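import Pool.Agent.R932.IdlSo
import Pool.Agent.W948.ZC.TR
import Pool.Agent.W239.ZC.UN
import Pool.Agent.Y95.MT.SOgen
import Pool.Agent.Y95.MT.GalSide
import Pool.Agent.Y95.MT.Main
import Pool.Agent.Y142.ZS.Stm
import Pool.Agent.R932.Tan

/-!
# From the full Lie algebra to the Zariski closure

If the image of an `ℓ`-adic representation has the full symplectic (orthogonal) Lie algebra, its
Zariski closure contains the symplectic (special orthogonal) group.
-/

set_option autoImplicit false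
set_option linter.unusedSectionVars false

open Matrix Filter Topology
open Pool.Agent.W528.ZC Pool.Agent.Y95.MT Pool.Agent.R932
open Pool.Agent.Y142.ZO (IsTangent Skew)
open Pool.Agent.Y142.ZI (FullLie)
open Pool.Agent.Y142.ZS (SpLie FullSp)
open Pool.Agent.W544.PG (BD bl)

namespace Pool.Agent.T6.H77.MS

noncomputable section

/-- `g` is a point of the Zariski closure of the image of `ρ` -/
def InCl {k R : Type} [Field k] [CommRing R] [Algebra k R] {N : ℕ} {Γ : Type} [Group Γ]
    (ρ : Γ →* Matrix (Fin N) (Fin N) k) (g : Matrix (Fin N) (Fin N) R) : Prop :=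
  ∀ f : MvPolynomial (Fin N × Fin N) k,
    (∀ s, MvPolynomial.aeval (fun q => ρ s q.1 q.2) f = 0) →
      MvPolynomial.aeval (fun q => g q.1 q.2) f = 0

section

variable {ℓ : ℕ} [Fact ℓ.Prime] {N : ℕ} {Γ : Type} [Group Γ] [TopologicalSpace Γ]
  [IsTopologicalGroup Γ] [CompactSpace Γ] {ρ : Γ →* Matrix (Fin N) (Fin N) ℚ_[ℓ]}

theorem ev_map_aeval {k K : Type} [Field k] [Field K] [Algebra k K]
    (g : Matrix (Fin N) (Fin N) K) (f : MvPolynomial (Fin N × Fin N) k) :
    ev g (MvPolynomial.map (algebraMap k K) f) = MvPolynomial.aeval (fun q => g q.1 q.2) f := by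
  unfold ev
  exact MvPolynomial.aeval_map_algebraMap K _ f

/-- points of the stabiliser lie in the closure -/
theorem inCl_of_St {K : Type} [Field K] [CharZero K] [Algebra ℚ_[ℓ] K]
    {g : Matrix (Fin N) (Fin N) K} (hg : g ∈ St (IG ρ (algebraMap ℚ_[ℓ] K))) : InCl ρ g := by
  intro f hf
  have h1 : MvPolynomial.map (algebraMap ℚ_[ℓ] K) f ∈ IG ρ (algebraMap ℚ_[ℓ] K) := by
    refine ⟨⊤, inferInstance, fun s _ => ?_⟩
    rw [ev_map_poly]
    have h2 : ev (ρ s) f = 0 := hf s
    rw [h2, map_zero]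
  have h2 := InZS_of_St InZS_one hg _ h1
  rwa [ev_map_aeval] at h2

theorem sy_expand {K : Type} [Field K] (J : Matrix (Fin N) (Fin N) K) (v w : Fin N → K) :
    sy J v w = ∑ p : Fin N, ∑ q : Fin N,
      (v p * w q) • sy J (Pi.single p 1) (Pi.single q 1) := by
  have h0 : ∀ (v w : Fin N → K), vecMulVec v (J *ᵥ w) = ∑ p : Fin N, ∑ q : Fin N,
      (v p * w q) • vecMulVec (Pi.single p 1) (J *ᵥ Pi.single q 1) := by
    intro v w
    ext i j
    simp only [Matrix.sum_apply, Matrix.smul_apply, vecMulVec_apply, smul_eq_mul,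
      Matrix.mulVec_single_one, Matrix.col_apply]
    rw [Finset.sum_eq_single i]
    · simp only [Pi.single_eq_same, one_mul]
      rw [Matrix.mulVec, dotProduct, Finset.mul_sum]
      exact Finset.sum_congr rfl fun q _ => by ring
    · intro b _ hb
      refine Finset.sum_eq_zero fun q _ => ?_
      rw [Pi.single_eq_of_ne (Ne.symm hb)]
      ring
    · intro h
      exact absurd (Finset.mem_univ i) h
  unfold sy
  have h1 := h0 w v
  rw [Finset.sum_comm] at h1
  rw [h0 v w, h1, ← Finset.sum_add_distrib]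
  refine Finset.sum_congr rfl fun p _ => ?_
  rw [← Finset.sum_add_distrib]
  refine Finset.sum_congr rfl fun q _ => ?_
  rw [smul_add, mul_comm (w q)]

theorem sy_single_map {k K : Type} [Field k] [Field K] (j : k →+* K)
    (J : Matrix (Fin N) (Fin N) k) (p q : Fin N) :
    sy (J.map j) (Pi.single p 1) (Pi.single q 1) = (sy J (Pi.single p 1) (Pi.single q 1)).map j := by
  ext a b
  have e : ∀ x y : Fin N, (Pi.single x (1 : K) : Fin N → K) y =
      j ((Pi.single x (1 : k) : Fin N → k) y) := by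
    intro x y
    by_cases h : x = y
    · subst h
      rw [Pi.single_eq_same, Pi.single_eq_same, map_one]
    · rw [Pi.single_eq_of_ne (Ne.symm h), Pi.single_eq_of_ne (Ne.symm h), map_zero]
  simp only [sy, Matrix.add_apply, vecMulVec_apply, Matrix.map_apply, Matrix.mulVec_single_one,
    Matrix.col_apply, e, map_add, map_mul]

theorem wd_single_map {k K : Type} [Field k] [Field K] (j : k →+* K)
    (J : Matrix (Fin N) (Fin N) k) (p q : Fin N) :
    wd (J.map j) (Pi.single p 1) (Pi.single q 1) = (wd J (Pi.single p 1) (Pi.single q 1)).map j := by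
  ext a b
  have e : ∀ x y : Fin N, (Pi.single x (1 : K) : Fin N → K) y =
      j ((Pi.single x (1 : k) : Fin N → k) y) := by
    intro x y
    by_cases h : x = y
    · subst h
      rw [Pi.single_eq_same, Pi.single_eq_same, map_one]
    · rw [Pi.single_eq_of_ne (Ne.symm h), Pi.single_eq_of_ne (Ne.symm h), map_zero]
  simp only [wd, Matrix.sub_apply, vecMulVec_apply, Matrix.map_apply, Matrix.mulVec_single_one,
    Matrix.col_apply, e, map_sub, map_mul]

theorem sy_skew {K : Type} [Field K] {J : Matrix (Fin N) (Fin N) K} (hJ : Jᵀ = -J)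
    (v w : Fin N → K) : (sy J v w)ᵀ * J + J * sy J v w = 0 := by
  unfold sy
  rw [Matrix.transpose_add, Matrix.transpose_vecMulVec, Matrix.transpose_vecMulVec,
    Matrix.add_mul, Matrix.mul_add, Matrix.vecMulVec_mul, Matrix.vecMulVec_mul,
    Matrix.mul_vecMulVec, Matrix.mul_vecMulVec,
    ← Matrix.mulVec_transpose, ← Matrix.mulVec_transpose, hJ, Matrix.neg_mulVec,
    Matrix.neg_mulVec, vmv_neg_right, vmv_neg_right]
  abel

theorem wd_skew' {K : Type} [Field K] {J : Matrix (Fin N) (Fin N) K} (hJ : Jᵀ = J)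
    (v w : Fin N → K) : (J * wd J v w)ᵀ = -(J * wd J v w) := by
  unfold wd
  rw [Matrix.mul_sub, Matrix.mul_vecMulVec, Matrix.mul_vecMulVec, Matrix.transpose_sub,
    Matrix.transpose_vecMulVec, Matrix.transpose_vecMulVec, neg_sub]

/-- **the symplectic case** -/
theorem sp_cl (hρ : Continuous ρ) {J : Matrix (Fin N) (Fin N) ℚ_[ℓ]} (hJ : Jᵀ = -J)
    (hd : J.det ≠ 0) (hfull : FullSp ℓ ρ J) {K : Type} [Field K] [Algebra ℚ_[ℓ] K]
    {g : Matrix (Fin N) (Fin N) K}
    (hg : gᵀ * J.map (algebraMap ℚ_[ℓ] K) * g = J.map (algebraMap ℚ_[ℓ] K)) : InCl ρ g := by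
  haveI : CharZero K := charZero_of_injective_algebraMap (algebraMap ℚ_[ℓ] K).injective
  set j := algebraMap ℚ_[ℓ] K with hj
  set JK := J.map j with hJK
  have hJK' : JKᵀ = -JK := by
    rw [hJK, ← Matrix.transpose_map, hJ]
    ext a b
    simp
  have hdK : JK.det ≠ 0 := by
    have h1 : JK.det = j J.det := by
      rw [hJK, RingHom.map_det, RingHom.mapMatrix_apply]
    rw [h1]
    exact (_root_.map_ne_zero _).2 hd
  have hLS0 : ∀ X, SpLie J X → X.map j ∈ LS (IG ρ j) := by
    intro X hX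
    obtain ⟨σ, hσ⟩ := hfull X hX
    exact tan_LS hρ hσ j
  have hsy : ∀ v w : Fin N → K, sy JK v w ∈ LS (IG ρ j) := by
    intro v w
    rw [sy_expand]
    refine Submodule.sum_mem _ fun p _ => Submodule.sum_mem _ fun q _ =>
      Submodule.smul_mem _ _ ?_
    rw [hJK, sy_single_map]
    exact hLS0 _ (sy_skew hJ _ _)
  have hev : ∀ v : Fin N → K, ev1 JK v ∈ LS (IG ρ j) := by
    intro v
    have h1 : ev1 JK v = (2 : K)⁻¹ • sy JK v v := by
      unfold ev1 sy
      rw [← two_smul K, smul_smul, inv_mul_cancel₀ two_ne_zero, one_smul]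
    rw [h1]
    exact Submodule.smul_mem _ _ (hsy v v)
  have hsq : ∀ v : Fin N → K, ev1 JK v * ev1 JK v = 0 := by
    intro v
    unfold ev1
    rw [Matrix.vecMulVec_mul_vecMulVec, jdot hJK', zero_smul, Matrix.vecMulVec_zero]
  have hSt : ∀ (c : K) (v : Fin N → K), 1 + c • ev1 JK v ∈ St (IG ρ j) := by
    intro c v f hf
    exact (Pool.Agent.W239.ZC.UN.main K (Fin N) (ev1 JK v) (hsq v) (IG ρ j)).1
      (fun f hf => hev v f hf) f hf c
  -- the symplectic group is generated by transvections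
  let ω : (Fin N → K) →ₗ[K] (Fin N → K) →ₗ[K] K := Matrix.toLinearMap₂' K JK
  have hω : ∀ v w, ω v w = v ⬝ᵥ JK *ᵥ w := fun v w => Matrix.toLinearMap₂'_apply' _ _ _
  have halt : ∀ v, ω v v = 0 := by
    intro v
    rw [hω, dotProduct_comm]
    exact jdot hJK' v
  have hnd : ∀ u, (∀ v, ω u v = 0) → u = 0 := by
    intro u hu
    have h1 : u ᵥ* JK = 0 := by
      funext i
      have h2 := hu (Pi.single i 1)
      rw [hω, Matrix.dotProduct_mulVec, dotProduct_single_one] at h2
      exact h2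
    exact Matrix.eq_zero_of_vecMul_eq_zero hdK h1
  have hgen := Pool.Agent.W948.ZC.TR.main K (Fin N → K) ω halt hnd (Matrix.toLin' g) (by
    intro u v
    rw [hω, hω, Matrix.toLin'_apply, Matrix.toLin'_apply, Matrix.mulVec_mulVec,
      Matrix.dotProduct_mulVec, Matrix.vecMul_mulVec, ← Matrix.dotProduct_mulVec,
      ← Matrix.mul_assoc, hg])
  let φ : Module.End K (Fin N → K) →* Matrix (Fin N) (Fin N) K :=
    (LinearMap.toMatrixAlgEquiv' (R := K) (n := Fin N)).toAlgHom.toMonoidHom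
  have hφ : ∀ T, φ T = LinearMap.toMatrix' T := fun T => rfl
  have hle : Submonoid.closure {T : Module.End K (Fin N → K) | ∃ (c : K) (u : Fin N → K),
      T = 1 + c • (ω u).smulRight u} ≤ (St (IG ρ j)).comap φ := by
    rw [Submonoid.closure_le]
    rintro T ⟨c, u, rfl⟩
    show φ _ ∈ St (IG ρ j)
    have h1 : φ (1 + c • (ω u).smulRight u) = 1 + (-c) • ev1 JK u := by
      rw [hφ]
      apply (LinearMap.toMatrix' (R := K) (m := Fin N) (n := Fin N)).symm.injective
      rw [LinearEquiv.symm_apply_apply]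
      refine LinearMap.ext fun x => ?_
      rw [LinearMap.toMatrix'_symm, Matrix.toLin'_apply, Matrix.add_mulVec, Matrix.one_mulVec,
        Matrix.smul_mulVec, LinearMap.add_apply, LinearMap.smul_apply]
      have h2 : ((ω u).smulRight u) x = (u ⬝ᵥ JK *ᵥ x) • u := by
        rw [LinearMap.smulRight_apply, hω]
      have h3 : ev1 JK u *ᵥ x = -((u ⬝ᵥ JK *ᵥ x) • u) := by
        unfold ev1
        rw [Matrix.vecMulVec_mulVec]
        have h4 : (JK *ᵥ u) ⬝ᵥ x = -(u ⬝ᵥ JK *ᵥ x) := by
          rw [Matrix.dotProduct_mulVec, ← Matrix.mulVec_transpose, hJK', Matrix.neg_mulVec,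
            neg_dotProduct, neg_neg]
        rw [h4]
        funext i
        simp [mul_comm]
      rw [h2, h3, neg_smul, smul_neg, neg_neg]
      rfl
    rw [h1]
    exact hSt _ _
  have h5 := hle hgen
  have h6 : φ (Matrix.toLin' g) = g := by
    rw [hφ, LinearMap.toMatrix'_toLin']
  have h7 : g ∈ St (IG ρ j) := by
    rw [← h6]
    exact h5
  exact inCl_of_St h7

/-- **the orthogonal case** -/
theorem so_cl (hρ : Continuous ρ) {B : Matrix (Fin N) (Fin N) ℚ_[ℓ]} (hB : Bᵀ = B)
    (hd : B.det ≠ 0) (hfull : FullLie ℓ ρ B) {g : Matrix (Fin N) (Fin N) (AlgebraicClosure ℚ_[ℓ])}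
    (hg : gᵀ * B.map (algebraMap ℚ_[ℓ] (AlgebraicClosure ℚ_[ℓ])) * g =
      B.map (algebraMap ℚ_[ℓ] (AlgebraicClosure ℚ_[ℓ]))) (hdet : g.det = 1) : InCl ρ g := by
  obtain ⟨e⟩ := exists_emb ℓ
  set j₀ := algebraMap ℚ_[ℓ] (AlgebraicClosure ℚ_[ℓ]) with hj₀
  set j : ℚ_[ℓ] →+* ℂ := e.comp j₀ with hj
  set Q := B.map j with hQ
  have hQ' : Qᵀ = Q := by
    rw [hQ, ← Matrix.transpose_map, hB]
  have hdQ : Q.det ≠ 0 := by
    have h1 : Q.det = j B.det := by
      rw [hQ, RingHom.map_det, RingHom.mapMatrix_apply]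
    rw [h1]
    exact (_root_.map_ne_zero _).2 hd
  have hLS0 : ∀ X, Skew B X → X.map j ∈ LS (IG ρ j) := by
    intro X hX
    obtain ⟨σ, hσ⟩ := hfull X hX
    exact tan_LS hρ hσ j
  have hwd : ∀ v w : Fin N → ℂ, wd Q v w ∈ LS (IG ρ j) := by
    intro v w
    rw [wd_basis]
    refine Submodule.sum_mem _ fun p _ => Submodule.sum_mem _ fun q _ =>
      Submodule.smul_mem _ _ ?_
    rw [hQ, wd_single_map]
    exact hLS0 _ (wd_skew' hB _ _)
  have hLS : ∀ Z : Matrix (Fin N) (Fin N) ℂ, Zᵀ * Q + Q * Z = 0 → Z ∈ LS (IG ρ j) := by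
    intro Z hZ
    rw [so_span hQ' hdQ hZ]
    exact Submodule.smul_mem _ _ (Submodule.sum_mem _ fun p _ => hwd _ _)
  have hgQ : (g.map e)ᵀ * Q * g.map e = Q := by
    have h1 : Q = (B.map j₀).map e := by
      rw [hQ, hj, Matrix.map_map]
      rfl
    rw [h1, ← Matrix.transpose_map, ← Matrix.map_mul, ← Matrix.map_mul, hg]
  let c : Fin N → Fin 1 := fun _ => 0
  have hBD : ∀ A : Matrix (Fin N) (Fin N) ℂ, BD c A := fun A a b hab => absurd rfl hab
  have hmem : g.map e ∈ St (IG ρ j) := by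
    refine so_gen_Q (c := c) hQ' (hBD _) hdQ ?_ hgQ (hBD _) ?_
    · intro Z hZ _ hZ3 t ht
      refine pw_mem_St (Gr3 hZ3) ?_ ht
      rw [dr3]
      exact hLS Z hZ
    · intro i
      have h1 : bl c i (g.map e) = g.map e := by
        ext a b
        have h2 : c a = i ∧ c b = i := ⟨Subsingleton.elim _ _, Subsingleton.elim _ _⟩
        show (if c a = i ∧ c b = i then (g.map e) a b else if a = b then 1 else 0) = _
        rw [if_pos h2]
      rw [h1]
      have h2 : (g.map e).det = e g.det := by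
        rw [RingHom.map_det, RingHom.mapMatrix_apply]
      rw [h2, hdet, map_one]
  intro f hf
  have h1 : MvPolynomial.map j f ∈ IG ρ j := by
    refine ⟨⊤, inferInstance, fun s _ => ?_⟩
    rw [ev_map_poly]
    have h2 : ev (ρ s) f = 0 := hf s
    rw [h2, map_zero]
  have h2 := InZS_of_St InZS_one hmem _ h1
  have h3 : MvPolynomial.map j f = MvPolynomial.map e (MvPolynomial.map j₀ f) := by
    rw [MvPolynomial.map_map]
  rw [h3, ev_map_poly, ev_map_aeval] at h2
  exact (map_eq_zero e).1 h2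

end

end

end Pool.Agent.T6.H77.MS
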