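import Pool.Agent.T6.H77.MS.Reg
import Pool.Agent.W522.C.C4
import Pool.Agent.Y134.TF.Ext

/-!
# Irreducibility from the degrees of the divisors of characteristic polynomials
-/

set_option autoImplicit false

namespace Pool.Agent.T6.H77.MS

open Polynomial Module Pool.Agent.Y134.TF

section
variable {K₀ V : Type} [Field K₀] [CharZero K₀] [AddCommGroup V] [Module K₀ V]
  [FiniteDimensional K₀ V]

lemma exists_dvd (f : End K₀ V) (W : Submodule K₀ V) (hW : ∀ x ∈ W, f x ∈ W) :
    ∃ B, B ∣ f.charpoly ∧ B.natDegree = finrank K₀ W := by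
  have hW' : W ≤ W.comap f := hW
  refine ⟨(f.restrict hW').charpoly, ?_, LinearMap.charpoly_natDegree _⟩
  rw [Pool.Agent.W522.C.charpoly_eq_mul f W hW']
  exact dvd_mul_right _ _

lemma finrank_ker_le {f : End K₀ V} (hsep : f.charpoly.Separable) {B : K₀[X]} (hB : B ≠ 0) :
    finrank K₀ (LinearMap.ker (aeval f B)) ≤ B.natDegree := by
  have hW : LinearMap.ker (aeval f B) ≤ (LinearMap.ker (aeval f B)).comap f := by
    intro x hx
    rw [LinearMap.mem_ker] at hx
    rw [Submodule.mem_comap, LinearMap.mem_ker]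
    have h1 : aeval f B * f = f * aeval f B := by
      have h := congrArg (aeval f) (mul_comm B X)
      rwa [map_mul, map_mul, aeval_X] at h
    have h2 := congrArg (fun g => g x) h1
    simp only [Module.End.mul_apply] at h2
    rw [h2, hx, map_zero]
  have h1 : (LinearMap.restrict f (p := LinearMap.ker (aeval f B))
      (q := LinearMap.ker (aeval f B)) hW).charpoly ∣ f.charpoly := by
    rw [Pool.Agent.W522.C.charpoly_eq_mul f _ hW]
    exact dvd_mul_right _ _
  have h2 : aeval (LinearMap.restrict f (p := LinearMap.ker (aeval f B))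
      (q := LinearMap.ker (aeval f B)) hW) B = 0 := by
    apply LinearMap.ext
    intro x
    apply Subtype.ext
    rw [LinearMap.zero_apply, Submodule.coe_zero]
    have hst : ∀ y ∈ LinearMap.ker (aeval f B), f y ∈ LinearMap.ker (aeval f B) := hW
    have h3 := aeval_restrict (c := f) (W := LinearMap.ker (aeval f B)) hst B x
    exact h3.symm.trans x.2
  have h3 := dvd_of_kill (hsep.of_dvd h1) h2
  have h4 := natDegree_le_of_dvd h3 hB
  rwa [LinearMap.charpoly_natDegree] at h4

theorem finrank_ker {f : End K₀ V} (hsep : f.charpoly.Separable) {B : K₀[X]}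
    (hB : B ∣ f.charpoly) : finrank K₀ (LinearMap.ker (aeval f B)) = B.natDegree := by
  obtain ⟨C, hC⟩ := hB
  have hne := hsep.ne_zero
  have hB0 : B ≠ 0 := by rintro rfl; rw [zero_mul] at hC; exact hne hC
  have hC0 : C ≠ 0 := by rintro rfl; rw [mul_zero] at hC; exact hne hC
  have hcop : IsCoprime B C := by
    rw [hC] at hsep
    exact hsep.isCoprime
  have h1 := sup_ker_aeval_eq_ker_aeval_mul_of_coprime f hcop
  have h2 := disjoint_ker_aeval_of_isCoprime f hcop
  rw [← hC, LinearMap.aeval_self_charpoly, LinearMap.ker_zero] at h1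
  have h3 := Submodule.finrank_add_eq_of_isCompl (K := K₀) (V := V) ⟨h2, codisjoint_iff.2 h1⟩
  have h4 := finrank_ker_le hsep hB0
  have h5 := finrank_ker_le hsep hC0
  have h6 : f.charpoly.natDegree = B.natDegree + C.natDegree := by
    rw [hC, natDegree_mul hB0 hC0]
  rw [LinearMap.charpoly_natDegree] at h6
  omega

end

section
variable {K₀ V : Type} [Field K₀] [AddCommGroup V] [Module K₀ V] {Γ : Type} [Group Γ]

/-- The algebra generated by the operators of a subgroup. -/
def opAlg (ρ : Representation K₀ Γ V) (Δ : Subgroup Γ) : Subalgebra K₀ (End K₀ V) :=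
  Algebra.adjoin K₀ (ρ '' (Δ : Set Γ))

lemma mem_opAlg {K : Type} [Field K] [Algebra K₀ K] [IsAlgClosed K] [FiniteDimensional K₀ V]
    {ρ : Representation K₀ Γ V} {Δ : Subgroup Γ} (hΔ : Δ.FiniteIndex) {s : Γ}
    (hs : Regular K (ρ s).charpoly) : ρ s ∈ opAlg ρ Δ := by
  obtain ⟨m, hm, -, hmΔ⟩ := Δ.exists_pow_mem_of_index_ne_zero hΔ.index_ne_zero s
  obtain ⟨p, hp⟩ := gen hs hm
  rw [← hp, ← map_pow]
  have h1 : aeval (ρ (s ^ m)) p ∈ Algebra.adjoin K₀ {ρ (s ^ m)} := aeval_mem_adjoin_singleton _ _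
  have h2 : ({ρ (s ^ m)} : Set (End K₀ V)) ⊆ ρ '' (Δ : Set Γ) := by
    rw [Set.singleton_subset_iff]
    exact ⟨_, hmΔ, rfl⟩
  exact Algebra.adjoin_mono h2 h1

/-- The conditions on the characteristic polynomials of the elements of the set `S`. -/
structure Patterns (K : Type) [Field K] [Algebra K₀ K] [FiniteDimensional K₀ V]
    (ρ : Representation K₀ Γ V) (S : Set Γ) : Prop where
  regular : ∀ s ∈ S, Regular K (ρ s).charpoly
  degree : ∀ d, 0 < d → d < finrank K₀ V → ∃ s ∈ S, ∀ B, B ∣ (ρ s).charpoly → B.natDegree ≠ d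
  gcd : ∀ d : ℕ, (∀ s ∈ S, ∀ B, B ∣ (ρ s).charpoly → d ∣ B.natDegree) → d = 1

end

section
variable {K₀ V : Type} [Field K₀] [CharZero K₀] [AddCommGroup V] [Module K₀ V]
  [FiniteDimensional K₀ V] {Γ : Type} [Group Γ] {K : Type} [Field K] [Algebra K₀ K]
  {ρ : Representation K₀ Γ V} {S : Set Γ}

omit [CharZero K₀] in
lemma Patterns.pos (h : Patterns K ρ S) : 0 < finrank K₀ V := by
  by_contra h0
  have h1 : (2 : ℕ) = 1 := by
    refine h.gcd 2 fun s _ B hB => ?_
    have h2 := natDegree_le_of_dvd hB (LinearMap.charpoly_monic _).ne_zero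
    rw [LinearMap.charpoly_natDegree] at h2
    have h3 : B.natDegree = 0 := by omega
    rw [h3]
    exact dvd_zero _
  omega

theorem Patterns.simple [IsAlgClosed K] (h : Patterns K ρ S) {Δ : Subgroup Γ}
    (hΔ : Δ.FiniteIndex) : IsSimpleModule (opAlg ρ Δ) V := by
  have hnt : Nontrivial V := finrank_pos_iff.1 h.pos
  have : IsSimpleOrder (Submodule (opAlg ρ Δ) V) := by
    refine { exists_pair_ne := ⟨⊥, ⊤, bot_ne_top⟩, eq_bot_or_eq_top := fun W => ?_ }
    by_contra hne
    rw [not_or] at hne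
    have h1 : 0 < finrank K₀ (W.restrictScalars K₀) := by
      rw [Module.finrank_pos_iff, Submodule.nontrivial_iff_ne_bot]
      intro h0
      exact hne.1 ((Submodule.restrictScalars_eq_bot_iff _ _ _).1 h0)
    have h2 : finrank K₀ (W.restrictScalars K₀) < finrank K₀ V := by
      apply Submodule.finrank_lt
      intro h0
      exact hne.2 ((Submodule.restrictScalars_eq_top_iff _ _ _).1 h0)
    obtain ⟨s, hs, hB⟩ := h.degree _ h1 h2
    obtain ⟨B, hB1, hB2⟩ := exists_dvd (ρ s) (W.restrictScalars K₀) (fun x hx => by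
      have h3 : ρ s x = (⟨ρ s, mem_opAlg hΔ (h.regular s hs)⟩ : opAlg ρ Δ) • x := rfl
      rw [h3]
      exact W.smul_mem _ hx)
    exact hB B hB1 hB2
  exact { toIsSimpleOrder := this }

omit [CharZero K₀] in
lemma finrank_dvd {D W : Type} [DivisionRing D] [AddCommGroup W] [Module K₀ D] [Module D W]
    [Module K₀ W] [IsScalarTower K₀ D W] : finrank K₀ D ∣ finrank K₀ W :=
  ⟨_, (Module.finrank_mul_finrank K₀ D W).symm⟩

set_option backward.isDefEq.respectTransparency false in
/-- The commutant consists of scalars. -/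
theorem Patterns.commutant [IsAlgClosed K] (h : Patterns K ρ S) {Δ : Subgroup Γ}
    (hΔ : Δ.FiniteIndex) (d : End (opAlg ρ Δ) V) : ∃ c : K₀, ∀ v, d v = c • v := by
  classical
  have hs := h.simple hΔ
  have hnt : Nontrivial V := finrank_pos_iff.1 h.pos
  have hfr : finrank K₀ (End (opAlg ρ Δ) V) = 1 := by
    refine h.gcd _ fun s hsS B hB => ?_
    have hker : ∀ (f : End (opAlg ρ Δ) V), ∀ x ∈ LinearMap.ker (aeval (ρ s) B),
        f x ∈ LinearMap.ker (aeval (ρ s) B) := by
      intro f x hx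
      rw [LinearMap.mem_ker] at hx ⊢
      have h1 : aeval (ρ s) B ∈ opAlg ρ Δ :=
        Algebra.adjoin_le (Set.singleton_subset_iff.2 (mem_opAlg hΔ (h.regular s hsS)))
          (aeval_mem_adjoin_singleton K₀ (ρ s))
      have h2 := f.map_smul (⟨aeval (ρ s) B, h1⟩ : opAlg ρ Δ) x
      change f ((aeval (ρ s) B) x) = (aeval (ρ s) B) (f x) at h2
      rw [← h2, hx, map_zero]
    let W : Submodule (End (opAlg ρ Δ) V) V :=
      { carrier := LinearMap.ker (aeval (ρ s) B)
        add_mem' := fun {a b} ha hb => Submodule.add_mem _ ha hb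
        zero_mem' := Submodule.zero_mem _
        smul_mem' := fun f x hx => hker f x hx }
    have h3 : finrank K₀ (End (opAlg ρ Δ) V) ∣ finrank K₀ W :=
      @finrank_dvd K₀ _ (End (opAlg ρ Δ) V) W Module.End.instDivisionRing _ _ _ _ _
    have h4 : finrank K₀ W = finrank K₀ (LinearMap.ker (aeval (ρ s) B)) := rfl
    rwa [h4, finrank_ker (h.regular s hsS).sep hB] at h3
  have hone : (1 : End (opAlg ρ Δ) V) ≠ 0 := by
    obtain ⟨x, hx⟩ := exists_ne (0 : V)
    intro h0
    exact hx (congrArg (fun f => f x) h0)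
  obtain ⟨c, hc⟩ := (finrank_eq_one_iff_of_nonzero' _ hone).1 hfr d
  exact ⟨c, fun v => by rw [← hc]; rfl⟩

theorem Patterns.opAlg_eq_top [IsAlgClosed K] (h : Patterns K ρ S) {Δ : Subgroup Γ}
    (hΔ : Δ.FiniteIndex) : opAlg ρ Δ = ⊤ := by
  classical
  have hs := h.simple hΔ
  rw [eq_top_iff]
  intro E _
  let f : End (End (opAlg ρ Δ) V) V :=
    { toFun := E
      map_add' := fun x y => E.map_add x y
      map_smul' := fun d x => by
        obtain ⟨c, hc⟩ := h.commutant hΔ d
        change E (d x) = d (E x)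
        rw [hc, hc, map_smul] }
  obtain ⟨r, hr⟩ := jacobson_density (R := opAlg ρ Δ) f
    (Finset.univ.image (finBasis K₀ V))
  have h1 : E = (r : End K₀ V) := by
    refine (finBasis K₀ V).ext fun i => ?_
    exact hr _ (Finset.mem_image_of_mem _ (Finset.mem_univ i))
  rw [h1]
  exact r.2

end

end Pool.Agent.T6.H77.MS
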