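import Pool.Agent.T6.H77.MS.Blk
import Pool.Agent.Y134.MR.Main

/-!
# Motives whose blocks are given by Frobenius polynomials
-/

set_option autoImplicit false

namespace Pool.Agent.T6.H77.MS

open Polynomial Module Pool.Agent.Y130 Pool.Agent.Y130.MT Pool.Agent.Y130.MM Pool.Agent.Y134.MR
  Pool.Agent.Y134.TF

section
variable {K T : Type} [Field K] [AddCommGroup T] [Module K T]

/-- The number `a` is a simple root of `P`; if `a δ ~ β γ` (`~` is the equality up to a root of unity)
for roots `β`, `γ`, `δ` of `P` then `β = a` or `γ = a` or `a δ ~ m`; and no positive power of a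
quotient `β / a` for a root `β ≠ a` is in the group `H` of numbers. -/
structure IsolatedValue (P : K[X]) (m : K) (H : Subgroup Kˣ) (a : K) : Prop where
  simple : P.derivative.eval a ≠ 0
  rel : ∀ β γ δ, P.eval β = 0 → P.eval γ = 0 → P.eval δ = 0 → RootEq (a * δ) (β * γ) →
    β = a ∨ γ = a ∨ RootEq (a * δ) m
  indep : ∀ β, P.eval β = 0 → ∀ n : ℕ, 0 < n → ∀ u ∈ H, β ^ n = u * a ^ n → β = a

lemma eval_of_isEig [FiniteDimensional K T] {f : End K T} {β : K} (h : IsEig f β) :
    f.charpoly.eval β = 0 := by
  obtain ⟨x, hx0, hx⟩ := h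
  exact (Module.End.hasEigenvalue_iff_isRoot_charpoly _ _).1
    (Module.End.hasEigenvalue_of_hasEigenvector (x := x)
      ⟨Module.End.mem_eigenspace_iff.2 hx, hx0⟩)

theorem IsolatedValue.vector [CharZero K] [IsAlgClosed K] [FiniteDimensional K T] {f : End K T} {m : K} {H : Subgroup Kˣ} {a : K}
    (h : IsolatedValue f.charpoly m H a) {v : T} (hv0 : v ≠ 0) (hv : f v = a • v) :
    IsolatedEigenvector f m H a v := by
  have hmult : finrank K (f.maxGenEigenspace a) ≤ 1 := by
    rw [LinearMap.finrank_maxGenEigenspace_eq]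
    by_contra h1
    have h2 := (Polynomial.one_lt_rootMultiplicity_iff_isRoot
      (LinearMap.charpoly_monic f).ne_zero).1 (not_le.1 h1)
    exact h.simple h2.2
  have hroot : ∀ β, IsEig f β → RootEq β a → β = a := by
    rintro β hβ ⟨n, hn, hnn⟩
    exact h.indep β (eval_of_isEig hβ) n hn 1 H.one_mem (by rw [Units.val_one, one_mul, hnn])
  refine ⟨hv0, hv, ?_, ?_, ?_⟩
  · intro β hβ x hx
    by_cases hx0 : x = 0
    · exact ⟨0, by rw [hx0, zero_smul]⟩
    have hβa := hroot β (isEig_of_gen hx0 hx) hβ
    rw [hβa] at hx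
    have hvm : v ∈ f.maxGenEigenspace a := by
      rw [Module.End.mem_maxGenEigenspace]
      refine ⟨1, ?_⟩
      rw [pow_one, LinearMap.sub_apply, LinearMap.smul_apply, Module.End.one_apply, sub_eq_zero]
      exact hv
    have hle : Submodule.span K {v} ≤ f.maxGenEigenspace a := by
      rw [Submodule.span_singleton_le_iff_mem]
      exact hvm
    have heq : Submodule.span K {v} = f.maxGenEigenspace a := by
      refine Submodule.eq_of_le_of_finrank_le hle ?_
      rw [finrank_span_singleton hv0]
      exact hmult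
    rw [← heq] at hx
    obtain ⟨r, hr⟩ := Submodule.mem_span_singleton.1 hx
    exact ⟨r, hr.symm⟩
  · intro β γ δ hβ hγ hδ hr
    rcases h.rel β γ δ (eval_of_isEig hβ) (eval_of_isEig hγ) (eval_of_isEig hδ) hr with h1 | h1 | h1
    · exact Or.inl ⟨1, one_pos, by rw [h1]⟩
    · exact Or.inr (Or.inl ⟨1, one_pos, by rw [h1]⟩)
    · exact Or.inr (Or.inr h1)
  · intro β hβ n hn u hu hun
    exact ⟨1, one_pos, by rw [h.indep β (eval_of_isEig hβ) n hn u hu hun]⟩

end

section
variable {K T E : Type} [Field K] [AddCommGroup T] [Module K T] {Γ G : Type} [Group Γ] [Group G]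
  {C : Type}

/-- `T` is a motive of weight `w` (a representation `τ` of the motivic Galois group `G`) with a
polarization `B` with values in `1(-w)` (the group acts on `1(-1)` through `q`), which is symmetric
for even and alternating for odd weight; it is the sum of the subspaces `U c`, stable under the
subgroup `G₀` of finite index, and `U c` is orthogonal to all `U d` except for `d = star c`, where
`star` is an involution. -/
structure PolarizedBlocks (q : G →* Kˣ) (w : ℕ) (τ : Representation K G T)
    (B : T →ₗ[K] T →ₗ[K] K) (U : C → Submodule K T) (star : C → C) (G₀ : Subgroup G) : Prop where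
  symm : ∀ x y, B x y = (-1) ^ w * B y x
  nondeg : ∀ x, (∀ y, B x y = 0) → x = 0
  equiv : ∀ g x y, B (τ g x) (τ g y) = (q g : K) ^ w * B x y
  sup : ⨆ c, U c = ⊤
  star_star : ∀ c, star (star c) = c
  orth : ∀ c d, d ≠ star c → ∀ x ∈ U c, ∀ y ∈ U d, B x y = 0
  index : G₀.FiniteIndex
  stable : ∀ g ∈ G₀, ∀ c, ∀ x ∈ U c, τ g x ∈ U c

/-- The conditions on the Frobenius polynomials for the block `U`: there is a structure of `U` over a
subfield of `K` such that the characteristic polynomials of the elements of some set `S` satisfy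
`Patterns`; and `U` is a line or one of the roots of the characteristic polynomial of some element on
`U` is an isolated root of the characteristic polynomial of the same element on `T`. -/
def BlockCondition [FiniteDimensional K T] (ι : Γ →* G) (q : G →* Kˣ) (w : ℕ)
    (τ : Representation K G T) (H : Γ → Subgroup Kˣ) (U : Submodule K T) : Prop :=
  ∃ F : RatRep K T Γ, F.IsStructure (τ.comp ι) U ∧ (∃ S, Patterns K F.rep S) ∧
    (finrank K U ≤ 1 ∨ ∃ (s : F.Γ₀) (a : K), aeval a (F.rep s).charpoly = 0 ∧
      IsolatedValue (τ (ι s)).charpoly ((q (ι s) : K) ^ w) (H s) a)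

/-- The block `U` is irreducible under all subgroups of finite index of the Galois group `Γ`. -/
def BlockIrreducible (ι : Γ →* G) (τ : Representation K G T) (U : Submodule K T) : Prop :=
  ∀ Δ : Subgroup Γ, Δ.FiniteIndex → ∀ P ≤ U, (∀ s ∈ Δ, ∀ x ∈ P, τ (ι s) x ∈ P) → P = ⊥ ∨ P = U

variable [CharZero K] [IsAlgClosed K] [FiniteDimensional K T] {ι : Γ →* G} {q : G →* Kˣ} {w : ℕ}
  {τ : Representation K G T} {B : T →ₗ[K] T →ₗ[K] K} {U : C → Submodule K T} {star : C → C}
  {G₀ : Subgroup G} {H : Γ → Subgroup Kˣ}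

theorem BlockCondition.irreducible {U : Submodule K T} (h : BlockCondition ι q w τ H U) :
    BlockIrreducible ι τ U := by
  obtain ⟨F, hF, ⟨S, hS⟩, -⟩ := h
  exact fun Δ hΔ P hP hst => hF.irreducible hS Δ hΔ P hP hst

omit [CharZero K] [IsAlgClosed K] in
theorem BlockCondition.ne {U : Submodule K T} (h : BlockCondition ι q w τ H U) : U ≠ ⊥ := by
  obtain ⟨F, hF, ⟨S, hS⟩, -⟩ := h
  rintro rfl
  have h1 := hF.rank
  rw [finrank_bot] at h1
  have h2 := hS.pos
  omega

theorem isolatedMotive (hM : PolarizedBlocks q w τ B U star G₀) (hH : ∀ s, q (ι s) ∈ H s)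
    (hU : ∀ c, BlockCondition ι q w τ H (U c))
    (hD : ∀ c, star c ≠ c → ∃ s, IndependentDet (τ (ι s)) U c (star c) (H s)) :
    IsolatedMotive ι q w τ B U star G₀ H where
  symm := hM.symm
  nondeg := hM.nondeg
  equiv := hM.equiv
  sup := hM.sup
  ne := fun c => (hU c).ne
  star_star := hM.star_star
  orth := hM.orth
  index := hM.index
  stable := hM.stable
  irreducible := fun c => (hU c).irreducible
  tate := hH
  isolated := fun c => by
    obtain ⟨F, hF, -, h | ⟨s, a, ha, h⟩⟩ := hU c
    · exact Or.inl h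
    · right
      obtain ⟨v, hvU, hv0, hv⟩ := hF.exists_eigenvector s ha
      exact ⟨s, a, v, hvU, h.vector hv0 hv⟩
  det := hD

end

end Pool.Agent.T6.H77.MS
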