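import Pool.Agent.T6.H77.MS.One

/-!
# Weight zero, odd rank: a criterion in terms of three Frobenius polynomials
-/

set_option autoImplicit false
set_option linter.unusedSectionVars false
set_option linter.style.haveILetI false

open Matrix Filter Topology NumberField IsDedekindDomain
open Pool.Agent.Y142.ZO (GK IsFrobenius IsTangent Orthogonal Skew GoodPlace TateSubquotient)
open Pool.Agent.Y142.ZI (QQ DensityZero FullLie Cyc NicePlace)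

namespace Pool.Agent.T6.H77.MS

noncomputable section

variable {Γ : Type} [Group Γ] [TopologicalSpace Γ] {N : ℕ} {M : Motive Γ N} {K : Type} [Field K]
  [NumberField K]

/-- the criterion -/
def Fibre.CriterionO (x : Fibre M K) : Prop :=
  ∃ (v₀ v₁ v₂ : HeightOneSpectrum (𝓞 K)) (Q₀ Q₁ Q₂ : Polynomial ℚ),
    GoodPlace x.S x.P v₀ Q₀ ∧
    (∀ a b c : ℂ, Polynomial.aeval a Q₀ = 0 → Polynomial.aeval b Q₀ = 0 →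
      Polynomial.aeval c Q₀ = 0 → a * b ≠ c) ∧
    GoodPlace x.S x.P v₂ Q₂ ∧
    ¬ IsSquare (Q₀.eval 1 * Q₀.eval (-1) * (Q₂.eval 1 * Q₂.eval (-1))) ∧
    NicePlace x.S x.P v₁ Q₁ ∧ 0 < Q₁.natDegree ∧ (Cyc Q₁).Nonempty

theorem criterionO_of_one (x : Fibre M K) (hφ : M.φᵀ = M.φ)
    (hw : ∀ (ℓ : ℕ) [Fact ℓ.Prime] (γ : Γ), M.Isometry (M.ρ ℓ γ)) (hodd : Odd N) (h5 : 5 ≤ N)
    (hbig : M.Big) {ℓ₀ : ℕ} [Fact ℓ₀.Prime] (hdvd : ¬ ℓ₀ ∣ N - 1) (hx : x.Full ℓ₀)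
    (hST : M.SatoTate ℓ₀) : x.CriterionO ∧ x.DetOK := by
  refine ⟨?_, detOK_of_one x hx hST⟩
  have hfull := fullLie_one x hφ hw h5 hbig hx hST
  have hsys : ∀ (ℓ : ℕ) [Fact ℓ.Prime], Orthogonal K N ℓ ((M.ρ ℓ).comp x.s)
      (M.φ.map (algebraMap ℚ ℚ_[ℓ])) x.S x.P := fun ℓ _ => orthSys x hφ hw ℓ
  obtain ⟨m, hm⟩ : ∃ m, N = 2 * m + 3 := by
    obtain ⟨k, hk⟩ := hodd
    exact ⟨k - 1, by omega⟩
  subst hm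
  have hdvd' : ¬ ℓ₀ ∣ 2 * (m + 1) := by
    rw [show 2 * m + 3 - 1 = 2 * (m + 1) by omega] at hdvd
    exact hdvd
  have hℓ2 : ℓ₀ ≠ 2 := by
    rintro rfl
    exact hdvd' ⟨m + 1, rfl⟩
  have hN' : Odd (2 * m + 3) := ⟨m + 1, by ring⟩
  have hLOG : Pool.Agent.Y142.ZO.S_LOG := Pool.Agent.Y497.ZO.log
  have hAPP : Pool.Agent.Y142.ZO.S_APP := Pool.Agent.Y815.ZO.t Pool.Agent.Y337.ZO.det_t
    Pool.Agent.Y337.ZO.qz_t hLOG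
  obtain ⟨v₀, Q₀, hv₀, h0, hv₀ℓ⟩ := Pool.Agent.Y142.ZI.good_of_full Pool.Agent.Y405.ZO.t
    Pool.Agent.Y537.ZI.t Pool.Agent.Y949.ZI.t Pool.Agent.R499.OP.form1
    Pool.Agent.R932.OP.typx x.finite
    (fun ℓ _ => (M.ρ ℓ).comp x.s) (fun ℓ _ => M.φ.map (algebraMap ℚ ℚ_[ℓ])) hsys ℓ₀ hℓ2 hfull
  have hnt : ¬ TateSubquotient ℓ₀ ((M.ρ ℓ₀).comp x.s) := Pool.Agent.R932.OP.nt ℓ₀ (2 * m + 3)
    (by omega) (GK K) ((M.ρ ℓ₀).comp x.s) (hsys ℓ₀).1 _ (hsys ℓ₀).2.1 (hsys ℓ₀).2.2.1 hfull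
  obtain ⟨β₁, β₂, hβ₁, hβ₂, hval⟩ := Pool.Agent.Y142.ZO.values Pool.Agent.Y142.ZO.alg_main
    Pool.Agent.Y337.ZO.iso_t Pool.Agent.Y337.ZO.line_t Pool.Agent.Y708.ZO.t hLOG
    Pool.Agent.Y497.ZO.exp Pool.Agent.Y497.ZO.pow Pool.Agent.Y96.ZO.t hAPP Pool.Agent.Y405.ZO.t
    hN' x.finite hv₀ h0 ℓ₀ hv₀ℓ _ _ (hsys ℓ₀) hnt
  obtain ⟨s, hs, hsq⟩ := Pool.Agent.Y405.ZO.t2 ℓ₀ β₁ hβ₁
  obtain ⟨v, Q, hv, hvsq⟩ := hval s 0 (by simpa using hs)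
  obtain ⟨v₁, Q₁, hv₁, hdeg₁, hne⟩ := Pool.Agent.Y142.ZI.cyc_of_full Pool.Agent.Y405.ZO.t
    Pool.Agent.Y537.ZI.t Pool.Agent.Y949.ZI.t Pool.Agent.Y484.ZI.t2 Pool.Agent.R932.OP.unr
    Pool.Agent.R499.OP.form2 Pool.Agent.R932.OP.typc x.finite
    (fun ℓ _ => (M.ρ ℓ).comp x.s) (fun ℓ _ => M.φ.map (algebraMap ℚ ℚ_[ℓ])) hsys ℓ₀ hdvd' hfull
  refine ⟨v₀, v₁, v, Q₀, Q₁, Q, hv₀, h0, hv, ?_, hv₁, hdeg₁, hne⟩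
  rintro ⟨a, ha⟩
  apply hsq
  rw [ha, map_mul] at hvsq
  have ha0 : a ≠ 0 := by
    rintro rfl
    rw [mul_zero] at ha
    exact mul_ne_zero (Pool.Agent.Y142.ZO.eval_ne_zero_of_coprime hv₀.2.2)
      (Pool.Agent.Y142.ZO.eval_ne_zero_of_coprime hv.2.2) ha
  have ha0' : algebraMap ℚ ℚ_[ℓ₀] a ≠ 0 := (_root_.map_ne_zero _).2 ha0
  obtain ⟨b, hb⟩ := hvsq
  refine ⟨b / algebraMap ℚ ℚ_[ℓ₀] a, ?_⟩
  field_simp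
  linear_combination hb

theorem density_of_criterionO (x : Fibre M K) (hφ : M.φᵀ = M.φ)
    (hw : ∀ (ℓ : ℕ) [Fact ℓ.Prime] (γ : Γ), M.Isometry (M.ρ ℓ γ)) (hodd : Odd N) (h3 : 3 ≤ N)
    (hc : x.CriterionO) (hdOK : x.DetOK) :
    M.Big ∧ DensityZero {ℓ | ∃ _ : Fact ℓ.Prime, ¬ M.SatoTate ℓ} := by
  have hsys : ∀ (ℓ : ℕ) [Fact ℓ.Prime], Orthogonal K N ℓ ((M.ρ ℓ).comp x.s)
      (M.φ.map (algebraMap ℚ ℚ_[ℓ])) x.S x.P := fun ℓ _ => orthSys x hφ hw ℓ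
  obtain ⟨v₀, v₁, v₂, Q₀, Q₁, Q₂, hv₀, h0, hv₂, hsq, hv₁, hdeg₁, hne⟩ := hc
  obtain ⟨m, hm⟩ : ∃ m, N = 2 * m + 3 := by
    obtain ⟨k, hk⟩ := hodd
    exact ⟨k - 1, by omega⟩
  subst hm
  have hN' : Odd (2 * m + 3) := ⟨m + 1, by ring⟩
  have hALG : Pool.Agent.Y142.ZO.S_ALG := Pool.Agent.Y142.ZO.alg_main
  have hISO : Pool.Agent.Y142.ZO.S_ISO := Pool.Agent.Y337.ZO.iso_t
  have hLINE : Pool.Agent.Y142.ZO.S_LINE := Pool.Agent.Y337.ZO.line_t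
  have hTAN : Pool.Agent.Y142.ZO.S_TAN := Pool.Agent.Y708.ZO.t
  have hLOG : Pool.Agent.Y142.ZO.S_LOG := Pool.Agent.Y497.ZO.log
  have hEXP : Pool.Agent.Y142.ZO.S_EXP := Pool.Agent.Y497.ZO.exp
  have hPOW : Pool.Agent.Y142.ZO.S_POW := Pool.Agent.Y497.ZO.pow
  have hSPEC : Pool.Agent.Y142.ZO.S_SPEC := Pool.Agent.Y96.ZO.t
  have hAPP : Pool.Agent.Y142.ZO.S_APP := Pool.Agent.Y815.ZO.t Pool.Agent.Y337.ZO.det_t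
    Pool.Agent.Y337.ZO.qz_t hLOG
  have hFROB : Pool.Agent.Y142.ZO.S_FROB := Pool.Agent.Y405.ZO.t
  have hBAD : Pool.Agent.Y142.ZO.S_BAD := Pool.Agent.Y458.ZO.bad hISO hLINE
  have hVAL : Pool.Agent.Y142.ZO.S_VAL := Pool.Agent.Y405.ZO.t1
  have hDENS : Pool.Agent.Y142.ZO.S_DENS := Pool.Agent.Y394.ZO.t1
  have hINF : Pool.Agent.Y142.ZO.S_INF := Pool.Agent.Y394.ZO.t2
  have hINT : Pool.Agent.Y142.ZI.S_INT := Pool.Agent.Y484.ZI.t1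
  have hRES : Pool.Agent.Y142.ZI.S_RES := Pool.Agent.Y484.ZI.t2
  have hCOMP : Pool.Agent.Y142.ZI.S_COMP := Pool.Agent.Y547.ZI.t2
  have hCHEB : Pool.Agent.Y142.ZI.S_CHEB := Pool.Agent.Y726.ZI.t1
  have hPOS : Pool.Agent.Y142.ZI.S_POS := Pool.Agent.Y726.ZI.t2 hCHEB
  have hDENS2 : Pool.Agent.Y142.ZI.S_DENS2 := Pool.Agent.Y681.ZI.t hCHEB
  have hMULTI : Pool.Agent.Y142.ZI.S_MULTI := Pool.Agent.Y537.ZI.t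
  have hIRR : Pool.Agent.Y142.ZI.S_IRR := Pool.Agent.Y971.ZI.t
  have hOPEN : Pool.Agent.Y142.ZI.S_OPEN := Pool.Agent.Y884.ZI.t
  have hCHAR : Pool.Agent.Y142.ZI.S_CHAR := Pool.Agent.Y949.ZI.t
  have hBADRED : Pool.Agent.Y142.ZI.S_BADRED := Pool.Agent.Y379.ZI.t
  have hTYPS : Pool.Agent.Y142.ZI.S_TYPS := Pool.Agent.R932.OP.typs Pool.Agent.R932.OP.clq hCOMP
  have hTYPT : Pool.Agent.Y142.ZI.S_TYPT := Pool.Agent.R932.OP.typt Pool.Agent.R932.OP.clq hCOMP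
  have hTYPU : Pool.Agent.Y142.ZI.S_TYPU := Pool.Agent.Y405.ZI.t Pool.Agent.R932.OP.clq hCOMP
  have hTS : Pool.Agent.Y142.ZO.DensityZero
      (Pool.Agent.Y142.ZO.TateSet (fun ℓ _ => (M.ρ ℓ).comp x.s)) :=
    Pool.Agent.Y142.ZO.density_zero hALG hISO hLINE hTAN hLOG hEXP hPOW hSPEC hAPP hFROB hBAD
      hVAL hDENS hINF hN' x.finite hv₀ h0 hv₂ hsq (fun ℓ _ => (M.ρ ℓ).comp x.s)
      (fun ℓ _ => M.φ.map (algebraMap ℚ ℚ_[ℓ])) hsys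
  obtain ⟨ℓ₁, -, hp₁, hfull₁⟩ := Pool.Agent.Y142.ZI.inf_open hLINE hTAN hEXP hSPEC hBADRED hPOS
    hIRR hv₀ h0 (fun ℓ _ => (M.ρ ℓ).comp x.s) (fun ℓ _ => M.φ.map (algebraMap ℚ ℚ_[ℓ])) hsys hTS
    hv₁ hdeg₁ hne 0
  have hd := Pool.Agent.Y142.ZI.density_of_cyc hLINE hTAN hEXP hSPEC hFROB hBADRED hPOS hIRR hOPEN
    hMULTI hCHAR Pool.Agent.R932.OP.gen hRES Pool.Agent.R932.OP.unr hINT hDENS2
    Pool.Agent.R499.OP.form1 Pool.Agent.R499.OP.form2 Pool.Agent.R932.OP.typc hTYPS hTYPT hTYPU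
    x.finite hv₀ h0 (fun ℓ _ => (M.ρ ℓ).comp x.s) (fun ℓ _ => M.φ.map (algebraMap ℚ ℚ_[ℓ])) hsys
    hTS hv₁ hdeg₁ hne
  refine ⟨big_of_cl fun g hg hdet => cl_of_fullLie x hφ hfull₁ hg hdet, DensityZero.mono hd ?_⟩
  rintro ℓ ⟨hp, hno⟩
  refine ⟨hp, fun hopen => hno (st_of_fullLie x hφ hw hdOK ?_)⟩
  exact Pool.Agent.R932.OP.cay ℓ _ _ ((M.ρ ℓ).comp x.s) (M.φ.map (algebraMap ℚ ℚ_[ℓ]))
    (hsys ℓ).2.1 (hsys ℓ).2.2.1 hopen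

end

end Pool.Agent.T6.H77.MS
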