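import Pool.Agent.T6.H77.MS.Tr
import Pool.Agent.R932.OP.SymA
import Pool.Agent.R932.OP.OrthA
import Pool.Agent.R932.OP.OrthE

/-!
# The motivic Sato-Tate conjecture: from one prime to 100 percent of the primes
-/

set_option autoImplicit false
set_option linter.unusedSectionVars false
set_option linter.style.haveILetI false

open Matrix Filter Topology NumberField IsDedekindDomain
open Pool.Agent.Y142.ZO (GK IsFrobenius IsTangent Orthogonal Skew)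
open Pool.Agent.Y142.ZI (QQ DensityZero FullLie Cyc)
open Pool.Agent.Y142.ZS (SpSys FullSp NiceP GenP Triv)

namespace Pool.Agent.T6.H77.MS

noncomputable section

/-- The realisations of a pure motive `M` of rank `N` over a field with absolute Galois group `Γ`,
in a `ℚ`-basis of the Betti realisation `ω(M)`: the polarisation `φ`, equations over `ℚ` of the
motivic Galois group, and the `ℓ`-adic representations. -/
structure Motive (Γ : Type) [Group Γ] [TopologicalSpace Γ] (N : ℕ) where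
  /-- the polarisation -/
  φ : Matrix (Fin N) (Fin N) ℚ
  nondeg : φ.det ≠ 0
  /-- equations of the motivic Galois group, polynomials in the matrix entries -/
  eqs : Set (MvPolynomial (Fin N × Fin N) ℚ)
  /-- the `ℓ`-adic realisations -/
  ρ : ∀ (ℓ : ℕ) [Fact ℓ.Prime], Γ →* Matrix (Fin N) (Fin N) ℚ_[ℓ]
  cont : ∀ (ℓ : ℕ) [Fact ℓ.Prime], Continuous (ρ ℓ)
  sim : ∀ (ℓ : ℕ) [Fact ℓ.Prime] (γ : Γ), ∃ c : ℚ_[ℓ],
    (ρ ℓ γ)ᵀ * φ.map (algebraMap ℚ ℚ_[ℓ]) * ρ ℓ γ = c • φ.map (algebraMap ℚ ℚ_[ℓ])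
  mem : ∀ (ℓ : ℕ) [Fact ℓ.Prime] (γ : Γ), ∀ f ∈ eqs,
    MvPolynomial.aeval (fun q => ρ ℓ γ q.1 q.2) f = 0

variable {Γ : Type} [Group Γ] [TopologicalSpace Γ] {N : ℕ}

/-- `g` is a point of the motivic Galois group of `M` -/
def Motive.InG (M : Motive Γ N) {R : Type} [CommRing R] [Algebra ℚ R]
    (g : Matrix (Fin N) (Fin N) R) : Prop :=
  ∀ f ∈ M.eqs, MvPolynomial.aeval (fun q => g q.1 q.2) f = 0

/-- `g` is an isometry of the polarisation of `M` -/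
def Motive.Isometry (M : Motive Γ N) {R : Type} [CommRing R] [Algebra ℚ R]
    (g : Matrix (Fin N) (Fin N) R) : Prop :=
  gᵀ * M.φ.map (algebraMap ℚ R) * g = M.φ.map (algebraMap ℚ R)

/-- the motivic Sato-Tate conjecture for `M` at `ℓ`: the isometries in the Zariski closure of the
image of `ρ_ℓ` are the isometries in the motivic Galois group -/
def Motive.SatoTate (M : Motive Γ N) (ℓ : ℕ) [Fact ℓ.Prime] : Prop :=
  ∀ g : Matrix (Fin N) (Fin N) (AlgebraicClosure ℚ_[ℓ]), M.Isometry g → (InCl (M.ρ ℓ) g ↔ M.InG g)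

/-- the motivic Galois group of `M` contains all isometries of determinant one -/
def Motive.Big (M : Motive Γ N) : Prop :=
  ∀ g : Matrix (Fin N) (Fin N) ℂ, M.Isometry g → g.det = 1 → M.InG g

/-- The fibre of `M` at a number field valued point `x`: the homomorphism of Galois groups, and
Frobenius polynomials with rational coefficients which do not depend on `ℓ`. -/
structure Fibre (M : Motive Γ N) (K : Type) [Field K] [NumberField K] where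
  s : GK K →* Γ
  cont : Continuous s
  S : Set (HeightOneSpectrum (𝓞 K))
  finite : S.Finite
  P : HeightOneSpectrum (𝓞 K) → Polynomial ℚ
  q : HeightOneSpectrum (𝓞 K) → ℚ
  frob : ∀ (ℓ : ℕ) [Fact ℓ.Prime], ∀ v ∉ S, (ℓ : 𝓞 K) ∉ v.asIdeal → ∀ σ : GK K,
    IsFrobenius v σ → (M.ρ ℓ (s σ⁻¹)).charpoly = (P v).map (algebraMap ℚ ℚ_[ℓ]) ∧
      (M.ρ ℓ (s σ⁻¹))ᵀ * M.φ.map (algebraMap ℚ ℚ_[ℓ]) * M.ρ ℓ (s σ⁻¹) =
        (q v : ℚ_[ℓ]) • M.φ.map (algebraMap ℚ ℚ_[ℓ])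

variable {M : Motive Γ N} {K : Type} [Field K] [NumberField K]

theorem cont_comp (x : Fibre M K) (ℓ : ℕ) [Fact ℓ.Prime] : Continuous ((M.ρ ℓ).comp x.s) :=
  (M.cont ℓ).comp x.cont

/-- the image of `ρ_ℓ` does not change under specialisation -/
def Fibre.Full (x : Fibre M K) (ℓ : ℕ) [Fact ℓ.Prime] : Prop :=
  ∀ γ : Γ, ∃ τ : GK K, M.ρ ℓ (x.s τ) = M.ρ ℓ γ

theorem map_form (A : Matrix (Fin N) (Fin N) ℚ) {k R : Type} [Field k] [CharZero k] [Field R]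
    [Algebra k R] [Algebra ℚ R] [CharZero R] :
    (A.map (algebraMap ℚ k)).map (algebraMap k R) = A.map (algebraMap ℚ R) := by
  ext i j
  simp only [Matrix.map_apply, eq_ratCast, map_ratCast]

theorem form_T {R : Type} [CommRing R] [Algebra ℚ R] {A : Matrix (Fin N) (Fin N) ℚ}
    (hA : Aᵀ = A) : (A.map (algebraMap ℚ R))ᵀ = A.map (algebraMap ℚ R) := by
  rw [← Matrix.transpose_map, hA]

theorem form_T' {R : Type} [CommRing R] [Algebra ℚ R] {A : Matrix (Fin N) (Fin N) ℚ}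
    (hA : Aᵀ = -A) : (A.map (algebraMap ℚ R))ᵀ = -A.map (algebraMap ℚ R) := by
  rw [← Matrix.transpose_map, hA]
  ext i j
  simp

theorem form_det {R : Type} [Field R] [Algebra ℚ R] {A : Matrix (Fin N) (Fin N) ℚ}
    (hA : A.det ≠ 0) : (A.map (algebraMap ℚ R)).det ≠ 0 := by
  have h1 : (A.map (algebraMap ℚ R)).det = algebraMap ℚ R A.det := by
    rw [RingHom.map_det, RingHom.mapMatrix_apply]
  rw [h1]
  exact (_root_.map_ne_zero _).2 hA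

/-- the easy inclusion -/
theorem inG_of_inCl (M : Motive Γ N) {ℓ : ℕ} [Fact ℓ.Prime]
    {g : Matrix (Fin N) (Fin N) (AlgebraicClosure ℚ_[ℓ])} (hg : InCl (M.ρ ℓ) g) : M.InG g := by
  intro f hf
  have h1 := hg (MvPolynomial.map (algebraMap ℚ ℚ_[ℓ]) f) (by
    intro γ
    rw [MvPolynomial.aeval_map_algebraMap]
    exact M.mem ℓ γ f hf)
  rwa [MvPolynomial.aeval_map_algebraMap] at h1

/-- a condition on complex points passes to points over the algebraic closure of `ℚ_ℓ` -/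
theorem big_transfer (M : Motive Γ N)
    (hbig : M.Big) (ℓ : ℕ)
    [Fact ℓ.Prime] {g : Matrix (Fin N) (Fin N) (AlgebraicClosure ℚ_[ℓ])} (hg : M.Isometry g)
    (hdet : g.det = 1) : M.InG g := by
  obtain ⟨e⟩ := Pool.Agent.Y95.MT.exists_emb ℓ
  have h1 : M.Isometry (g.map e) := by
    have h2 : M.φ.map (algebraMap ℚ ℂ) =
        (M.φ.map (algebraMap ℚ (AlgebraicClosure ℚ_[ℓ]))).map e := by
      ext i j
      simp only [Matrix.map_apply, eq_ratCast, map_ratCast]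
    show (g.map e)ᵀ * M.φ.map (algebraMap ℚ ℂ) * g.map e = M.φ.map (algebraMap ℚ ℂ)
    rw [h2, ← Matrix.transpose_map, ← Matrix.map_mul, ← Matrix.map_mul]
    congr 1
  have h3 : (g.map e).det = 1 := by
    have h2 : (g.map e).det = e g.det := by
      rw [RingHom.map_det, RingHom.mapMatrix_apply]
    rw [h2, hdet, map_one]
  intro f hf
  have h4 := hbig _ h1 h3 f hf
  have h5 : MvPolynomial.aeval (fun q : Fin N × Fin N => (g.map e) q.1 q.2) f =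
      e (MvPolynomial.aeval (fun q => g q.1 q.2) f) :=
    (MvPolynomial.comp_aeval_apply (fun q : Fin N × Fin N => g q.1 q.2)
      (e.toRatAlgHom : AlgebraicClosure ℚ_[ℓ] →ₐ[ℚ] ℂ) f).symm
  rw [h5] at h4
  exact (map_eq_zero _).1 h4

/-- if the Zariski closure contains the isometries of determinant one, then so does the motivic
Galois group -/
theorem big_of_cl {M : Motive Γ N} {ℓ : ℕ} [Fact ℓ.Prime]
    (h : ∀ g : Matrix (Fin N) (Fin N) (AlgebraicClosure ℚ_[ℓ]), M.Isometry g → g.det = 1 →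
      InCl (M.ρ ℓ) g) : M.Big := by
  intro g hg hdet f hf
  by_contra hne
  obtain ⟨g', hg', hne'⟩ := exists_point_ne (F' := AlgebraicClosure ℚ_[ℓ]) g hne
  have h1 : M.Isometry g' := by
    show g'ᵀ * M.φ.map (algebraMap ℚ (AlgebraicClosure ℚ_[ℓ])) * g' =
      M.φ.map (algebraMap ℚ (AlgebraicClosure ℚ_[ℓ]))
    rw [isoPol_iff]
    intro i j
    refine hg' _ ?_
    exact (isoPol_iff M.φ g).1 hg i j
  have h2 : g'.det = 1 := by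
    have h3 := hg' ((gen ℚ N).det - 1) (by
      rw [map_sub, gen_det, map_one, hdet, sub_self])
    rw [map_sub, gen_det, map_one] at h3
    exact sub_eq_zero.1 h3
  exact hne' (inG_of_inCl M (h g' h1 h2) f hf)

/-- the points over `ℚ_ℓ` of the isometry group in the closure -/
theorem inCl_of_MST {ℓ : ℕ} [Fact ℓ.Prime]
    (hbig : M.Big)
    (hST : M.SatoTate ℓ) {x : Fibre M K} (hx : x.Full ℓ)
    (h : Matrix (Fin N) (Fin N) ℚ_[ℓ])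
    (hh : hᵀ * M.φ.map (algebraMap ℚ ℚ_[ℓ]) * h = M.φ.map (algebraMap ℚ ℚ_[ℓ]))
    (hdet : h.det = 1) : InCl ((M.ρ ℓ).comp x.s) h := by
  refine inCl_comp' hx (inCl_of_map (K := AlgebraicClosure ℚ_[ℓ]) ?_)
  have h1 : M.Isometry (h.map (algebraMap ℚ_[ℓ] (AlgebraicClosure ℚ_[ℓ]))) := by
    show (h.map (algebraMap ℚ_[ℓ] (AlgebraicClosure ℚ_[ℓ])))ᵀ *
      M.φ.map (algebraMap ℚ (AlgebraicClosure ℚ_[ℓ])) *
        h.map (algebraMap ℚ_[ℓ] (AlgebraicClosure ℚ_[ℓ])) =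
          M.φ.map (algebraMap ℚ (AlgebraicClosure ℚ_[ℓ]))
    rw [← map_form M.φ (k := ℚ_[ℓ]), ← Matrix.transpose_map, ← Matrix.map_mul,
      ← Matrix.map_mul, hh]
  refine (hST _ h1).2 (big_transfer M hbig ℓ h1 ?_)
  have h2 : (h.map (algebraMap ℚ_[ℓ] (AlgebraicClosure ℚ_[ℓ]))).det =
      algebraMap ℚ_[ℓ] (AlgebraicClosure ℚ_[ℓ]) h.det := by
    rw [RingHom.map_det, RingHom.mapMatrix_apply]
  rw [h2, hdet, map_one]

theorem tangent_of_comp {ℓ : ℕ} [Fact ℓ.Prime] {G : Type} [Group G] {s : G →* Γ}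
    {ρ : Γ →* Matrix (Fin N) (Fin N) ℚ_[ℓ]} {X : Matrix (Fin N) (Fin N) ℚ_[ℓ]}
    (h : IsTangent ℓ (ρ.comp s) X) : IsTangent ℓ ρ X := by
  obtain ⟨σ, hσ⟩ := h
  exact ⟨fun n => s (σ n), hσ⟩

/-! ### odd weight -/

/-- A criterion in terms of two Frobenius polynomials. At `v` the polynomial is separable and no
quotient of two different roots is a root of unity. At `w` it is separable, and the only relations
`a / b = c / d` between the roots with `a ≠ b` are those from `a a' = q`. Some automorphism of `ℚ̄`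
permutes the roots of the first polynomial cyclically and fixes the roots of the second. -/
def Fibre.Criterion (x : Fibre M K) : Prop :=
  ∃ v w : HeightOneSpectrum (𝓞 K), NiceP x.S x.P v ∧ GenP x.S x.P x.q w ∧
    (Cyc (x.P v) ∩ Triv (x.P w)).Nonempty

theorem spSys (x : Fibre M K) (hφ : M.φᵀ = -M.φ) (ℓ : ℕ) [Fact ℓ.Prime] :
    SpSys K N ℓ ((M.ρ ℓ).comp x.s) (M.φ.map (algebraMap ℚ ℚ_[ℓ])) x.S x.P x.q :=
  ⟨cont_comp x ℓ, form_T' hφ, form_det M.nondeg, fun g => M.sim ℓ (x.s g),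
    fun v hv hvℓ σ hσ => x.frob ℓ v hv hvℓ σ hσ⟩

theorem fullSp_one (x : Fibre M K) (hφ : M.φᵀ = -M.φ)
    (hbig : M.Big)
    {ℓ : ℕ} [Fact ℓ.Prime] (hx : x.Full ℓ) (hST : M.SatoTate ℓ) :
    FullSp ℓ ((M.ρ ℓ).comp x.s) (M.φ.map (algebraMap ℚ ℚ_[ℓ])) :=
  fullSp_of_cl (ρ := (M.ρ ℓ).comp x.s) (cont_comp x ℓ) (form_T' hφ) (form_det M.nondeg)
    (fun s => M.sim ℓ (x.s s)) fun h hh hdet => inCl_of_MST hbig hST hx h hh hdet

theorem cl_of_fullSp (x : Fibre M K) (hφ : M.φᵀ = -M.φ) {ℓ : ℕ} [Fact ℓ.Prime]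
    (hfull : FullSp ℓ ((M.ρ ℓ).comp x.s) (M.φ.map (algebraMap ℚ ℚ_[ℓ])))
    {g : Matrix (Fin N) (Fin N) (AlgebraicClosure ℚ_[ℓ])} (hg : M.Isometry g) :
    InCl (M.ρ ℓ) g := by
  refine inCl_comp (sp_cl (ρ := (M.ρ ℓ).comp x.s) (cont_comp x ℓ) (form_T' hφ)
    (form_det M.nondeg) hfull ?_)
  rw [map_form]
  exact hg

theorem st_of_fullSp (x : Fibre M K) (hφ : M.φᵀ = -M.φ) {ℓ : ℕ} [Fact ℓ.Prime]
    (hfull : FullSp ℓ ((M.ρ ℓ).comp x.s) (M.φ.map (algebraMap ℚ ℚ_[ℓ]))) : M.SatoTate ℓ :=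
  fun _ hg => ⟨inG_of_inCl M, fun _ => cl_of_fullSp x hφ hfull hg⟩

theorem criterion_of_one (x : Fibre M K) (hφ : M.φᵀ = -M.φ) (hN : 0 < N)
    (hbig : M.Big)
    {ℓ : ℕ} [Fact ℓ.Prime] (h2 : ℓ ≠ 2) (hx : x.Full ℓ) (hST : M.SatoTate ℓ) : x.Criterion := by
  have hfull := fullSp_one x hφ hbig hx hST
  have hsys : ∀ (ℓ : ℕ) [Fact ℓ.Prime], SpSys K N ℓ ((M.ρ ℓ).comp x.s)
      (M.φ.map (algebraMap ℚ ℚ_[ℓ])) x.S x.P x.q := fun ℓ _ => spSys x hφ ℓ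
  obtain ⟨m, hm⟩ : ∃ m, N = 2 * m + 2 := by
    obtain ⟨k, hk⟩ := Pool.Agent.R932.OP.even_of_alt hφ M.nondeg
    exact ⟨k - 1, by omega⟩
  subst hm
  exact Pool.Agent.Y142.ZS.start Pool.Agent.Y537.ZI.t Pool.Agent.Y405.ZO.t Pool.Agent.Y779.ZS.t
    Pool.Agent.R932.OP.sform Pool.Agent.R932.OP.typcu Pool.Agent.R932.OP.typg x.finite
    (fun ℓ _ => (M.ρ ℓ).comp x.s) (fun ℓ _ => M.φ.map (algebraMap ℚ ℚ_[ℓ])) hsys ℓ h2 hfull

theorem density_of_criterion (x : Fibre M K) (hφ : M.φᵀ = -M.φ) (hN : 0 < N)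
    (hc : x.Criterion) : M.Big ∧ DensityZero {ℓ | ∃ _ : Fact ℓ.Prime, ¬ M.SatoTate ℓ} := by
  have hsys : ∀ (ℓ : ℕ) [Fact ℓ.Prime], SpSys K N ℓ ((M.ρ ℓ).comp x.s)
      (M.φ.map (algebraMap ℚ ℚ_[ℓ])) x.S x.P x.q := fun ℓ _ => spSys x hφ ℓ
  obtain ⟨m, hm⟩ : ∃ m, N = 2 * m + 2 := by
    obtain ⟨k, hk⟩ := Pool.Agent.R932.OP.even_of_alt hφ M.nondeg
    exact ⟨k - 1, by omega⟩
  subst hm
  obtain ⟨v, w, hv, hw, hne⟩ := hc
  have hTAN : Pool.Agent.Y142.ZO.S_TAN := Pool.Agent.Y708.ZO.t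
  have hEXP : Pool.Agent.Y142.ZO.S_EXP := Pool.Agent.Y497.ZO.exp
  have hFROB : Pool.Agent.Y142.ZO.S_FROB := Pool.Agent.Y405.ZO.t
  have hINT : Pool.Agent.Y142.ZI.S_INT := Pool.Agent.Y484.ZI.t1
  have hRES : Pool.Agent.Y142.ZI.S_RES := Pool.Agent.Y484.ZI.t2
  have hCOMP : Pool.Agent.Y142.ZI.S_COMP := Pool.Agent.Y547.ZI.t2
  have hCHEB : Pool.Agent.Y142.ZI.S_CHEB := Pool.Agent.Y726.ZI.t1
  have hPOS : Pool.Agent.Y142.ZI.S_POS := Pool.Agent.Y726.ZI.t2 hCHEB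
  have hDENS2 : Pool.Agent.Y142.ZI.S_DENS2 := Pool.Agent.Y681.ZI.t hCHEB
  have hMULTI : Pool.Agent.Y142.ZI.S_MULTI := Pool.Agent.Y537.ZI.t
  have hIRR : Pool.Agent.Y142.ZI.S_IRR := Pool.Agent.Y971.ZI.t
  have hBADIRR : Pool.Agent.Y142.ZS.S_BADIRR := Pool.Agent.R932.OP.badirr Pool.Agent.Y614.ZD.t
  have hTANS : Pool.Agent.Y142.ZS.S_TANS := Pool.Agent.Y710.ZS.t1
  have hROOT : Pool.Agent.Y142.ZS.S_ROOT := Pool.Agent.Y929.ZS.t_root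
  have hSPL : Pool.Agent.Y142.ZS.S_SPL := Pool.Agent.Y674.ZS.t
  have hCHARS : Pool.Agent.Y142.ZS.S_CHARS := Pool.Agent.Y779.ZS.t
  have hCLQ : Pool.Agent.Y142.ZI.S_CLQ := Pool.Agent.R932.OP.clq
  have hGEN : Pool.Agent.Y142.ZI.S_GEN := Pool.Agent.R932.OP.gen
  have hUNR : Pool.Agent.Y142.ZI.S_UNR := Pool.Agent.R932.OP.unr
  have hTYPC : Pool.Agent.Y142.ZI.S_TYPC := Pool.Agent.R932.OP.typc
  have hTYPS : Pool.Agent.Y142.ZI.S_TYPS := Pool.Agent.R932.OP.typs hCLQ hCOMP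
  have hTYPT : Pool.Agent.Y142.ZI.S_TYPT := Pool.Agent.R932.OP.typt hCLQ hCOMP
  have hTYPU : Pool.Agent.Y142.ZI.S_TYPU := Pool.Agent.Y405.ZI.t hCLQ hCOMP
  have hd := Pool.Agent.Y142.ZS.densityS hTAN hEXP hTANS hROOT hBADIRR hPOS hIRR hSPL hMULTI hFROB
    hCHARS Pool.Agent.R932.OP.sform Pool.Agent.R932.OP.twist hTYPC hTYPS hTYPT hTYPU
    Pool.Agent.R932.OP.typg hGEN hRES hUNR hINT hDENS2 x.finite
    (fun ℓ _ => (M.ρ ℓ).comp x.s) (fun ℓ _ => M.φ.map (algebraMap ℚ ℚ_[ℓ])) hsys hv hw hne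
  obtain ⟨ℓ₁, -, hp₁, hfull₁⟩ := Pool.Agent.Y142.ZS.inf_open hTAN hEXP hTANS hROOT hBADIRR hPOS hIRR
    hSPL (Nat.succ_pos _) (fun ℓ _ => (M.ρ ℓ).comp x.s) (fun ℓ _ => M.φ.map (algebraMap ℚ ℚ_[ℓ]))
    hsys hv hw hne 0
  refine ⟨big_of_cl fun g hg _ => cl_of_fullSp x hφ hfull₁ hg, DensityZero.mono hd ?_⟩
  rintro ℓ ⟨hp, hno⟩
  exact ⟨hp, fun hfull => hno (st_of_fullSp x hφ hfull)⟩

/-! ### weight zero -/

theorem orthSys (x : Fibre M K) (hφ : M.φᵀ = M.φ)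
    (hw : ∀ (ℓ : ℕ) [Fact ℓ.Prime] (γ : Γ), M.Isometry (M.ρ ℓ γ)) (ℓ : ℕ) [Fact ℓ.Prime] :
    Orthogonal K N ℓ ((M.ρ ℓ).comp x.s) (M.φ.map (algebraMap ℚ ℚ_[ℓ])) x.S x.P :=
  ⟨cont_comp x ℓ, form_T hφ, form_det M.nondeg, fun g => hw ℓ (x.s g),
    fun v hv hvℓ σ hσ => (x.frob ℓ v hv hvℓ σ hσ).1⟩

theorem det_sq {R : Type} [Field R] [Algebra ℚ R] {g : Matrix (Fin N) (Fin N) R}
    (hg : M.Isometry g) : g.det = 1 ∨ g.det = -1 := by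
  have h1 := congrArg Matrix.det hg
  rw [Matrix.det_mul, Matrix.det_mul, Matrix.det_transpose] at h1
  have h2 := form_det (R := R) M.nondeg
  have h3 : (M.φ.map (algebraMap ℚ R)).det * (g.det * g.det) =
      (M.φ.map (algebraMap ℚ R)).det * 1 := by
    rw [mul_one]
    linear_combination h1
  exact mul_self_eq_one_iff.1 (mul_left_cancel₀ h2 h3)

theorem fullLie_one (x : Fibre M K) (hφ : M.φᵀ = M.φ)
    (hw : ∀ (ℓ : ℕ) [Fact ℓ.Prime] (γ : Γ), M.Isometry (M.ρ ℓ γ)) (h5 : 5 ≤ N)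
    (hbig : M.Big)
    {ℓ : ℕ} [Fact ℓ.Prime] (hx : x.Full ℓ) (hST : M.SatoTate ℓ) :
    FullLie ℓ ((M.ρ ℓ).comp x.s) (M.φ.map (algebraMap ℚ ℚ_[ℓ])) :=
  fullLie_of_cl (ρ := (M.ρ ℓ).comp x.s) (cont_comp x ℓ) (form_T hφ) (form_det M.nondeg) h5
    (fun s => hw ℓ (x.s s)) fun h hh hdet => inCl_of_MST hbig hST hx h hh hdet

/-- If the motivic Galois group contains isometries of determinant `-1`, then some Frobenius
polynomial shows that the determinant of the representations is not trivial. -/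
def Fibre.DetOK (x : Fibre M K) : Prop :=
  (∃ g : Matrix (Fin N) (Fin N) ℂ, M.Isometry g ∧ g.det = -1 ∧ M.InG g) →
    ∃ v ∉ x.S, (-1) ^ N * (x.P v).coeff 0 ≠ 1

theorem det_frob (x : Fibre M K) (ℓ : ℕ) [Fact ℓ.Prime] {v : HeightOneSpectrum (𝓞 K)}
    (hv : v ∉ x.S) (hvℓ : (ℓ : 𝓞 K) ∉ v.asIdeal) {σ : GK K} (hσ : IsFrobenius v σ) :
    (M.ρ ℓ (x.s σ⁻¹)).det = 1 ↔ (-1) ^ N * (x.P v).coeff 0 = 1 := by
  have h2 := (x.frob ℓ v hv hvℓ σ hσ).1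
  rw [Matrix.det_eq_sign_charpoly_coeff, h2, Polynomial.coeff_map, Fintype.card_fin]
  have h3 : (-1) ^ N * algebraMap ℚ ℚ_[ℓ] ((x.P v).coeff 0) =
      algebraMap ℚ ℚ_[ℓ] ((-1) ^ N * (x.P v).coeff 0) := by
    rw [map_mul, map_pow, map_neg, map_one]
  rw [h3, ← map_one (algebraMap ℚ ℚ_[ℓ])]
  constructor
  · intro h
    have h4 := (algebraMap ℚ ℚ_[ℓ]).injective h
    exact h4
  · intro h
    rw [h]

/-- a Frobenius polynomial which shows that the determinant is not trivial -/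
theorem exists_det (x : Fibre M K) {ℓ₀ : ℕ} [hℓ₀ : Fact ℓ₀.Prime] (T : Set (HeightOneSpectrum (𝓞 K)))
    (hT : T.Finite) {τ : GK K} (hτ : (M.ρ ℓ₀ (x.s τ)).det ≠ 1) :
    ∃ v, v ∉ T ∧ v ∉ x.S ∧ (-1) ^ N * (x.P v).coeff 0 ≠ 1 := by
  have hO : IsOpen {σ : GK K | (M.ρ ℓ₀ (x.s σ)).det ≠ 1} := by
    have h1 : Continuous fun σ : GK K => (M.ρ ℓ₀ (x.s σ)).det :=
      (cont_comp x ℓ₀).matrix_det
    exact isOpen_ne_fun h1 continuous_const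
  obtain ⟨v, hv, σ, hσ, hσO⟩ := Pool.Agent.Y405.ZO.t K _ hO ⟨τ, hτ⟩
    (x.S ∪ {v | (ℓ₀ : 𝓞 K) ∈ v.asIdeal} ∪ T)
    ((x.finite.union (Pool.Agent.Y142.ZO.finite_above ℓ₀ hℓ₀.out)).union hT)
  rw [Set.mem_union, Set.mem_union, not_or, not_or] at hv
  exact ⟨v, hv.2, hv.1.1, fun h => hσO ((det_frob x ℓ₀ hv.1.1 hv.1.2 hσ).2 h)⟩

/-- the determinant of `ρ_ℓ` is not trivial for every `ℓ` -/
theorem det_all (x : Fibre M K) {v : HeightOneSpectrum (𝓞 K)} (hv : v ∉ x.S)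
    (hne : (-1) ^ N * (x.P v).coeff 0 ≠ 1) (ℓ : ℕ) [hℓ : Fact ℓ.Prime] :
    ∃ σ : GK K, (M.ρ ℓ (x.s σ)).det ≠ 1 := by
  obtain ⟨ℓ₀, hlt, hp⟩ := Nat.exists_infinite_primes (Ideal.absNorm v.asIdeal + 1)
  haveI : Fact ℓ₀.Prime := ⟨hp⟩
  have hvℓ := Pool.Agent.Y142.ZO.not_mem_of_lt v hp (by omega : Ideal.absNorm v.asIdeal < ℓ₀)
  obtain ⟨σ, hσ⟩ := Pool.Agent.W401.Frob.exists_frob v
  have h1 : (M.ρ ℓ₀ (x.s σ⁻¹)).det ≠ 1 := fun h => hne ((det_frob x ℓ₀ hv hvℓ hσ).1 h)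
  obtain ⟨w, hwT, hwS, hwne⟩ := exists_det x {v | (ℓ : 𝓞 K) ∈ v.asIdeal}
    (Pool.Agent.Y142.ZO.finite_above ℓ hℓ.out) h1
  obtain ⟨σ', hσ'⟩ := Pool.Agent.W401.Frob.exists_frob w
  exact ⟨σ'⁻¹, fun h => hwne ((det_frob x ℓ hwS hwT hσ').1 h)⟩

theorem detOK_of_one (x : Fibre M K) {ℓ₀ : ℕ} [Fact ℓ₀.Prime] (hx : x.Full ℓ₀)
    (hST : M.SatoTate ℓ₀) : x.DetOK := by
  rintro ⟨g, hg, hd, hG⟩
  -- a point of determinant `-1` over the algebraic closure of `ℚ_ℓ₀`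
  obtain ⟨g₀, hg₀⟩ := exists_point (F' := AlgebraicClosure ℚ_[ℓ₀]) g
  have hg₀I : M.Isometry g₀ := by
    show g₀ᵀ * M.φ.map (algebraMap ℚ (AlgebraicClosure ℚ_[ℓ₀])) * g₀ =
      M.φ.map (algebraMap ℚ (AlgebraicClosure ℚ_[ℓ₀]))
    rw [isoPol_iff]
    intro i j
    refine hg₀ _ ?_
    exact (isoPol_iff M.φ g).1 hg i j
  have hg₀G : M.InG g₀ := fun f hf => hg₀ f (hG f hf)
  have hg₀d : g₀.det = -1 := by
    have h2 := hg₀ ((gen ℚ N).det + 1) (by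
      rw [map_add, gen_det, map_one, hd, neg_add_cancel])
    rw [map_add, gen_det, map_one] at h2
    exact eq_neg_of_add_eq_zero_left h2
  have hcl := (hST g₀ hg₀I).2 hg₀G
  obtain ⟨γ, hγ⟩ : ∃ γ, (M.ρ ℓ₀ γ).det ≠ 1 := by
    by_contra hcon
    push Not at hcon
    have h2 := hcl ((gen ℚ_[ℓ₀] N).det - 1) (by
      intro γ
      rw [map_sub, gen_det, map_one, hcon, sub_self])
    rw [map_sub, gen_det, map_one, hg₀d] at h2
    have h3 : (2 : AlgebraicClosure ℚ_[ℓ₀]) = 0 := by linear_combination -h2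
    exact two_ne_zero h3
  obtain ⟨τ, hτ⟩ := hx γ
  rw [← hτ] at hγ
  obtain ⟨v, -, hv, hne⟩ := exists_det x ∅ Set.finite_empty hγ
  exact ⟨v, hv, hne⟩

theorem cl_of_fullLie (x : Fibre M K) (hφ : M.φᵀ = M.φ) {ℓ : ℕ} [Fact ℓ.Prime]
    (hfull : FullLie ℓ ((M.ρ ℓ).comp x.s) (M.φ.map (algebraMap ℚ ℚ_[ℓ])))
    {g : Matrix (Fin N) (Fin N) (AlgebraicClosure ℚ_[ℓ])} (hg : M.Isometry g)
    (hdet : g.det = 1) : InCl (M.ρ ℓ) g := by
  refine inCl_comp (so_cl (ρ := (M.ρ ℓ).comp x.s) (cont_comp x ℓ) (form_T hφ)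
    (form_det M.nondeg) hfull ?_ hdet)
  rw [map_form]
  exact hg

theorem st_of_fullLie (x : Fibre M K) (hφ : M.φᵀ = M.φ)
    (hw : ∀ (ℓ : ℕ) [Fact ℓ.Prime] (γ : Γ), M.Isometry (M.ρ ℓ γ)) (hdOK : x.DetOK)
    {ℓ : ℕ} [Fact ℓ.Prime]
    (hfull : FullLie ℓ ((M.ρ ℓ).comp x.s) (M.φ.map (algebraMap ℚ ℚ_[ℓ]))) : M.SatoTate ℓ := by
  intro g hg
  refine ⟨inG_of_inCl M, fun hG => ?_⟩
  rcases det_sq hg with h1 | h1
  · exact cl_of_fullLie x hφ hfull hg h1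
  -- a complex point of determinant `-1`
  obtain ⟨g₀, hg₀⟩ := exists_point (F' := ℂ) g
  have hg₀I : M.Isometry g₀ := by
    show g₀ᵀ * M.φ.map (algebraMap ℚ ℂ) * g₀ = M.φ.map (algebraMap ℚ ℂ)
    rw [isoPol_iff]
    intro i j
    refine hg₀ _ ?_
    exact (isoPol_iff M.φ g).1 hg i j
  have hg₀G : M.InG g₀ := fun f hf => hg₀ f (hG f hf)
  have hg₀d : g₀.det = -1 := by
    have h2 := hg₀ ((gen ℚ N).det + 1) (by
      rw [map_add, gen_det, map_one, h1, neg_add_cancel])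
    rw [map_add, gen_det, map_one] at h2
    exact eq_neg_of_add_eq_zero_left h2
  obtain ⟨v, hv, hne⟩ := hdOK ⟨g₀, hg₀I, hg₀d, hg₀G⟩
  obtain ⟨σ, hσ⟩ := det_all x hv hne ℓ
  have hdσ : (M.ρ ℓ (x.s σ)).det = -1 := (det_sq (hw ℓ (x.s σ))).resolve_left hσ
  -- multiply by an element of the image
  obtain ⟨r, hr⟩ : ∃ r, r = M.ρ ℓ (x.s σ)⁻¹ := ⟨_, rfl⟩
  have hrr : M.ρ ℓ (x.s σ) * r = 1 := by rw [hr, ← map_mul, mul_inv_cancel, map_one]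
  have hrd : r.det = -1 := by
    have h2 := congrArg Matrix.det hrr
    rw [Matrix.det_mul, hdσ, Matrix.det_one] at h2
    linear_combination -h2
  have hrI : M.Isometry (r.map (algebraMap ℚ_[ℓ] (AlgebraicClosure ℚ_[ℓ]))) := by
    have h2 := hw ℓ (x.s σ)⁻¹
    rw [← hr] at h2
    show (r.map (algebraMap ℚ_[ℓ] (AlgebraicClosure ℚ_[ℓ])))ᵀ *
      M.φ.map (algebraMap ℚ (AlgebraicClosure ℚ_[ℓ])) *
        r.map (algebraMap ℚ_[ℓ] (AlgebraicClosure ℚ_[ℓ])) =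
          M.φ.map (algebraMap ℚ (AlgebraicClosure ℚ_[ℓ]))
    rw [← map_form M.φ (k := ℚ_[ℓ]), ← Matrix.transpose_map, ← Matrix.map_mul,
      ← Matrix.map_mul]
    congr 1
  have hI2 : M.Isometry (r.map (algebraMap ℚ_[ℓ] (AlgebraicClosure ℚ_[ℓ])) * g) := by
    show (r.map (algebraMap ℚ_[ℓ] (AlgebraicClosure ℚ_[ℓ])) * g)ᵀ *
      M.φ.map (algebraMap ℚ (AlgebraicClosure ℚ_[ℓ])) *
        (r.map (algebraMap ℚ_[ℓ] (AlgebraicClosure ℚ_[ℓ])) * g) =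
          M.φ.map (algebraMap ℚ (AlgebraicClosure ℚ_[ℓ]))
    rw [Matrix.transpose_mul]
    have h2 : gᵀ * (r.map (algebraMap ℚ_[ℓ] (AlgebraicClosure ℚ_[ℓ])))ᵀ *
        M.φ.map (algebraMap ℚ (AlgebraicClosure ℚ_[ℓ])) *
          (r.map (algebraMap ℚ_[ℓ] (AlgebraicClosure ℚ_[ℓ])) * g) =
        gᵀ * ((r.map (algebraMap ℚ_[ℓ] (AlgebraicClosure ℚ_[ℓ])))ᵀ *
          M.φ.map (algebraMap ℚ (AlgebraicClosure ℚ_[ℓ])) *
            r.map (algebraMap ℚ_[ℓ] (AlgebraicClosure ℚ_[ℓ]))) * g := by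
      simp only [Matrix.mul_assoc]
    rw [h2]
    have h3 : (r.map (algebraMap ℚ_[ℓ] (AlgebraicClosure ℚ_[ℓ])))ᵀ *
        M.φ.map (algebraMap ℚ (AlgebraicClosure ℚ_[ℓ])) *
          r.map (algebraMap ℚ_[ℓ] (AlgebraicClosure ℚ_[ℓ])) =
            M.φ.map (algebraMap ℚ (AlgebraicClosure ℚ_[ℓ])) := hrI
    rw [h3]
    exact hg
  have hd2 : (r.map (algebraMap ℚ_[ℓ] (AlgebraicClosure ℚ_[ℓ])) * g).det = 1 := by
    have h2 : (r.map (algebraMap ℚ_[ℓ] (AlgebraicClosure ℚ_[ℓ]))).det =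
        algebraMap ℚ_[ℓ] (AlgebraicClosure ℚ_[ℓ]) r.det := by
      rw [RingHom.map_det, RingHom.mapMatrix_apply]
    rw [Matrix.det_mul, h2, hrd, h1, map_neg, map_one]
    ring
  have h4 := inCl_mul (x.s σ) (cl_of_fullLie x hφ hfull hI2 hd2)
  rw [← Matrix.mul_assoc, ← Matrix.map_mul, hrr, Matrix.map_one _ (map_zero _) (map_one _),
    Matrix.one_mul] at h4
  exact h4

/-- A criterion in terms of finitely many Frobenius polynomials: there are an automorphism `s` of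
`ℚ̄` and places `v_d`, `w` such that for `0 < d < N` no set of `d` roots of the polynomial at `v_d`
is stable under `s`, the polynomial at `w` is generic, and `s` fixes a root of it. -/
def Fibre.CriterionE (x : Fibre M K) : Prop := Pool.Agent.Y142.ZD.StartData N x.S x.P

theorem criterionE_of_one (x : Fibre M K) (hφ : M.φᵀ = M.φ)
    (hw : ∀ (ℓ : ℕ) [Fact ℓ.Prime] (γ : Γ), M.Isometry (M.ρ ℓ γ)) (heven : Even N) (h8 : 8 ≤ N)
    (hbig : M.Big) {ℓ₀ : ℕ} [Fact ℓ₀.Prime] (hdvd : ¬ ℓ₀ ∣ (N - 2) * (N - 4))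
    (hev : Even (padicValRat ℓ₀ M.φ.det)) (hx : x.Full ℓ₀) (hST : M.SatoTate ℓ₀) :
    x.CriterionE ∧ x.DetOK := by
  have hfull := fullLie_one x hφ hw (by omega) hbig hx hST
  have hval : Even (Padic.valuation (M.φ.map (algebraMap ℚ ℚ_[ℓ₀])).det) := by
    have h1 : (M.φ.map (algebraMap ℚ ℚ_[ℓ₀])).det = ((M.φ.det : ℚ) : ℚ_[ℓ₀]) := by
      have h2 : (M.φ.map (algebraMap ℚ ℚ_[ℓ₀])).det = algebraMap ℚ ℚ_[ℓ₀] M.φ.det := by
        rw [RingHom.map_det, RingHom.mapMatrix_apply]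
      rw [h2, eq_ratCast]
    rw [h1, Padic.valuation_ratCast]
    exact hev
  refine ⟨?_, detOK_of_one x hx hST⟩
  obtain ⟨n, hn⟩ : ∃ n, N = 2 * n := by
    obtain ⟨k, hk⟩ := heven
    exact ⟨k, by omega⟩
  have hn4 : 4 ≤ n := by omega
  have hL : ¬ ℓ₀ ∣ 4 * ((n - 1) * (n - 2)) := by
    have h1 : (N - 2) * (N - 4) = 4 * ((n - 1) * (n - 2)) := by
      have h2 : N - 2 = 2 * (n - 1) := by omega
      have h3 : N - 4 = 2 * (n - 2) := by omega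
      rw [h2, h3]
      ring
    rwa [h1] at hdvd
  exact Pool.Agent.Y142.ZD.startE hn4 hn Pool.Agent.Y537.ZI.t Pool.Agent.Y405.ZO.t
    Pool.Agent.R932.OP.chare Pool.Agent.Y331.ZD.t Pool.Agent.R932.OP.fda Pool.Agent.R932.OP.fdb
    Pool.Agent.R932.OP.typd3 (Pool.Agent.R932.OP.tame Pool.Agent.R932.OP.nr) x.finite
    (fun ℓ _ => (M.ρ ℓ).comp x.s) (fun ℓ _ => M.φ.map (algebraMap ℚ ℚ_[ℓ]))
    (fun ℓ _ => orthSys x hφ hw ℓ) ℓ₀ hL hfull hval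

theorem density_of_criterionE (x : Fibre M K) (hφ : M.φᵀ = M.φ)
    (hw : ∀ (ℓ : ℕ) [Fact ℓ.Prime] (γ : Γ), M.Isometry (M.ρ ℓ γ)) (heven : Even N) (h8 : 8 ≤ N)
    (hc : x.CriterionE) (hdOK : x.DetOK) :
    M.Big ∧ DensityZero {ℓ | ∃ _ : Fact ℓ.Prime, ¬ M.SatoTate ℓ} := by
  obtain ⟨n, hn⟩ : ∃ n, N = 2 * n := by
    obtain ⟨k, hk⟩ := heven
    exact ⟨k, by omega⟩
  have hn4 : 4 ≤ n := by omega
  have hTAN : Pool.Agent.Y142.ZO.S_TAN := Pool.Agent.Y708.ZO.t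
  have hFROB : Pool.Agent.Y142.ZO.S_FROB := Pool.Agent.Y405.ZO.t
  have hINT : Pool.Agent.Y142.ZI.S_INT := Pool.Agent.Y484.ZI.t1
  have hCHEB : Pool.Agent.Y142.ZI.S_CHEB := Pool.Agent.Y726.ZI.t1
  have hPOS : Pool.Agent.Y142.ZI.S_POS := Pool.Agent.Y726.ZI.t2 hCHEB
  have hDENS2 : Pool.Agent.Y142.ZI.S_DENS2 := Pool.Agent.Y681.ZI.t hCHEB
  have hMULTI : Pool.Agent.Y142.ZI.S_MULTI := Pool.Agent.Y537.ZI.t
  have hBADD : Pool.Agent.Y142.ZD.S_BADD := Pool.Agent.Y614.ZD.t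
  have hKRQ : Pool.Agent.Y142.ZD.S_KRQ := Pool.Agent.Y331.ZD.t
  have hABS : Pool.Agent.Y142.ZD.S_ABS := Pool.Agent.Y758.ZD.t
  have hSUB : Pool.Agent.Y142.ZD.S_SUB := Pool.Agent.Y100.ZD.t
  have hd := Pool.Agent.Y142.ZD.densityE hn4 hn hTAN hABS Pool.Agent.R932.OP.roote hBADD hPOS hSUB
    Pool.Agent.R932.OP.disce hMULTI hFROB Pool.Agent.R932.OP.chare hKRQ Pool.Agent.R932.OP.fda
    Pool.Agent.R932.OP.fdb (Pool.Agent.R932.OP.typd2 Pool.Agent.R932.OP.nr)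
    Pool.Agent.R932.OP.typd3 Pool.Agent.R932.OP.nr
    (Pool.Agent.R932.OP.tame Pool.Agent.R932.OP.nr) Pool.Agent.R932.OP.gend
    Pool.Agent.R932.OP.cld hINT hDENS2 x.finite
    (fun ℓ _ => (M.ρ ℓ).comp x.s) (fun ℓ _ => M.φ.map (algebraMap ℚ ℚ_[ℓ]))
    (fun ℓ _ => orthSys x hφ hw ℓ) hc
  obtain ⟨ℓ₁, -, hp₁, hfull₁⟩ := Pool.Agent.Y142.ZD.inf_open hTAN hABS Pool.Agent.R932.OP.roote
    hBADD hPOS hSUB (fun ℓ _ => (M.ρ ℓ).comp x.s) (fun ℓ _ => M.φ.map (algebraMap ℚ ℚ_[ℓ]))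
    (fun ℓ _ => orthSys x hφ hw ℓ) hc 0
  refine ⟨big_of_cl fun g hg hdet => cl_of_fullLie x hφ hfull₁ hg hdet, DensityZero.mono hd ?_⟩
  rintro ℓ ⟨hp, hno⟩
  exact ⟨hp, fun hfull => hno (st_of_fullLie x hφ hw hdOK hfull)⟩

/-- **weight zero, odd rank** -/
theorem one_odd (x : Fibre M K) (hφ : M.φᵀ = M.φ)
    (hw : ∀ (ℓ : ℕ) [Fact ℓ.Prime] (γ : Γ), M.Isometry (M.ρ ℓ γ)) (hodd : Odd N) (h5 : 5 ≤ N)
    (hbig : M.Big)
    {ℓ₀ : ℕ} [Fact ℓ₀.Prime] (hdvd : ¬ ℓ₀ ∣ N - 1) (hx : x.Full ℓ₀) (hST : M.SatoTate ℓ₀) :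
    DensityZero {ℓ | ∃ _ : Fact ℓ.Prime, ¬ M.SatoTate ℓ} := by
  have hfull := fullLie_one x hφ hw h5 hbig hx hST
  have hd := Pool.Agent.R932.OP.orth_one hodd (by omega) x.finite
    (fun ℓ _ => (M.ρ ℓ).comp x.s) (fun ℓ _ => M.φ.map (algebraMap ℚ ℚ_[ℓ]))
    (fun ℓ _ => orthSys x hφ hw ℓ) ℓ₀ hdvd hfull
  refine DensityZero.mono hd ?_
  rintro ℓ ⟨hp, hno⟩
  exact ⟨hp, fun hfull => hno (st_of_fullLie x hφ hw (detOK_of_one x hx hST) hfull)⟩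

end

end Pool.Agent.T6.H77.MS
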