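import Pool.Agent.T6.H77.MS.Main

/-!
# Motives whose blocks are given by Frobenius polynomials: the conditions in unbundled form
-/

set_option autoImplicit false

namespace Pool.Agent.T6.H77.MS

open Polynomial Module Pool.Agent.Y130 Pool.Agent.Y130.MT Pool.Agent.Y130.MM Pool.Agent.Y134.MR
  Pool.Agent.Y134.TF

section
variable {K T Γ : Type} [Field K] [AddCommGroup T] [Module K T] [Group Γ]

/-- The subgroup `Γ₀` has finite index in `Γ`, and the map `j` identifies `V ⊗ K`, with the action
`rep` of `Γ₀`, with the subspace `U` of `T`, with the action `τ`. -/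
structure RationalStructure {K₀ V : Type} [Field K₀] [Algebra K₀ K] [AddCommGroup V] [Module K₀ V]
    {Γ₀ : Subgroup Γ} (rep : Representation K₀ Γ₀ V) (j : V →+ T) (τ : Representation K Γ T)
    (U : Submodule K T) : Prop where
  index : Γ₀.FiniteIndex
  smul : ∀ (a : K₀) (v : V), j (a • v) = algebraMap K₀ K a • j v
  span : Submodule.span K (Set.range j) = U
  rank : finrank K U = finrank K₀ V
  equivariant : ∀ (s : Γ₀) (v : V), τ s (j v) = j (rep s v)

/-- Some root of the characteristic polynomial of `rep s`, for some `s`, is an isolated root of the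
characteristic polynomial of `s` on `T`. -/
def HasIsolatedRoot {G K₀ V : Type} [Group G] [FiniteDimensional K T] [Field K₀] [Algebra K₀ K]
    [AddCommGroup V] [Module K₀ V] [FiniteDimensional K₀ V] (ι : Γ →* G) (q : G →* Kˣ) (w : ℕ)
    (τ : Representation K G T) (H : Γ → Subgroup Kˣ) {Γ₀ : Subgroup Γ}
    (rep : Representation K₀ Γ₀ V) : Prop :=
  ∃ (s : Γ₀) (a : K), aeval a (rep s).charpoly = 0 ∧
    IsolatedValue (τ (ι s)).charpoly ((q (ι s) : K) ^ w) (H s) a

/-- The conditions on the Frobenius polynomials for the block `U`: there is a structure of `U` over a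
subfield of `K` such that the characteristic polynomials of the elements of some set `S` satisfy
`Patterns`; and `U` is a line or one of the roots of the characteristic polynomial of some element on
`U` is an isolated root of the characteristic polynomial of the same element on `T`. -/
def BlockData {G : Type} [Group G] [FiniteDimensional K T] (ι : Γ →* G) (q : G →* Kˣ) (w : ℕ)
    (τ : Representation K G T) (H : Γ → Subgroup Kˣ) (U : Submodule K T) : Prop :=
  ∃ (K₀ : Type) (_ : Field K₀) (_ : Algebra K₀ K) (V : Type) (_ : AddCommGroup V)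
    (_ : Module K₀ V) (_ : FiniteDimensional K₀ V) (Γ₀ : Subgroup Γ)
    (rep : Representation K₀ Γ₀ V) (j : V →+ T), RationalStructure rep j (τ.comp ι) U ∧
      (∃ S, Patterns K rep S) ∧ (finrank K U ≤ 1 ∨ HasIsolatedRoot ι q w τ H rep)

theorem BlockData.condition {G : Type} [Group G] [FiniteDimensional K T] {ι : Γ →* G}
    {q : G →* Kˣ} {w : ℕ} {τ : Representation K G T} {H : Γ → Subgroup Kˣ} {U : Submodule K T}
    (h : BlockData ι q w τ H U) : BlockCondition ι q w τ H U := by
  obtain ⟨K₀, _, _, V, _, _, _, Γ₀, rep, j, h1, h2, h3⟩ := h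
  exact ⟨⟨K₀, V, Γ₀, rep, j⟩, ⟨h1.index, h1.smul, h1.span, h1.rank, h1.equivariant⟩, h2, h3⟩

end

end Pool.Agent.T6.H77.MS
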