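import Pool.Agent.Y134.TF.Irr

/-!
# Maps with distinct eigenvalues whose quotients are not roots of unity
-/

set_option autoImplicit false

namespace Pool.Agent.T6.H77.MS

open Polynomial Module TensorProduct Pool.Agent.Y134.TF

/-- The polynomial has distinct roots, and no quotient of two different roots in `K` is a root of
unity. -/
structure Regular {K₀ : Type} [Field K₀] (K : Type) [Field K] [Algebra K₀ K] (A : K₀[X]) : Prop where
  sep : A.Separable
  ratio : NoRatio K A

section
variable {K₀ K V : Type} [Field K₀] [Field K] [Algebra K₀ K] [AddCommGroup V]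
  [Module K₀ V]

lemma aeval_baseChange (f : End K₀ V) (P : K₀[X]) :
    aeval (f.baseChange K) (P.map (algebraMap K₀ K)) = (aeval f P).baseChange K := by
  rw [aeval_map_algebraMap]
  have h1 : f.baseChange K = (Module.End.baseChangeHom K₀ K V) f := rfl
  rw [h1, aeval_algHom_apply]
  rfl

lemma kill [FiniteDimensional K₀ V] {f : End K₀ V} {P : K₀[X]} (hP : aeval f P = 0) {z : K}
    (hz : aeval z f.charpoly = 0) : aeval z P = 0 := by
  have h1 : Module.End.HasEigenvalue (f.baseChange K) z := by
    rw [Module.End.hasEigenvalue_iff_isRoot_charpoly, LinearMap.charpoly_baseChange, IsRoot.def,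
      eval_map_algebraMap]
    exact hz
  obtain ⟨x, hx⟩ := h1.exists_hasEigenvector
  have h2 := Module.End.aeval_apply_of_hasEigenvector (p := P.map (algebraMap K₀ K)) hx
  rw [aeval_baseChange, hP, LinearMap.baseChange_zero, LinearMap.zero_apply,
    eval_map_algebraMap] at h2
  exact (smul_eq_zero.1 h2.symm).resolve_right hx.2

/-- A separable polynomial all of whose roots are roots of `P` divides `P`. -/
lemma dvd_of_roots [IsAlgClosed K] {A P : K₀[X]} (hA : A.Separable)
    (h : ∀ z : K, aeval z A = 0 → aeval z P = 0) : A ∣ P := by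
  classical
  have hA0 : A ≠ 0 := hA.ne_zero
  obtain ⟨C, hC⟩ := EuclideanDomain.gcd_dvd_left A P
  have hCu : IsUnit C := by
    by_contra hCu
    have hC0 : C ≠ 0 := fun h0 => hA0 (by rw [hC, h0, mul_zero])
    have hdeg : (C.map (algebraMap K₀ K)).degree ≠ 0 := by
      rw [degree_map]
      exact fun h0 => hCu (isUnit_iff_degree_eq_zero.2 h0)
    obtain ⟨z, hz⟩ := IsAlgClosed.exists_root _ hdeg
    rw [IsRoot.def, eval_map_algebraMap] at hz
    have h1 : aeval z A = 0 := by rw [hC, map_mul, hz, mul_zero]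
    have h2 : aeval z (EuclideanDomain.gcd A P) = 0 := by
      rw [EuclideanDomain.gcd_eq_gcd_ab A P, map_add, map_mul, map_mul, h1, h z h1, zero_mul,
        zero_mul, add_zero]
    have h3 : IsCoprime (EuclideanDomain.gcd A P) C := by
      rw [hC] at hA
      exact hA.isCoprime
    obtain ⟨u, v, huv⟩ := h3
    have h4 := congrArg (aeval z) huv
    rw [map_add, map_mul, map_mul, h2, hz, mul_zero, mul_zero, add_zero, map_one] at h4
    exact zero_ne_one h4
  have h5 : A ∣ EuclideanDomain.gcd A P := by
    obtain ⟨u, hu⟩ := hCu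
    refine ⟨(↑u⁻¹ : K₀[X]), ?_⟩
    conv_rhs => rw [hC, ← hu]
    rw [mul_assoc, Units.mul_inv, mul_one]
  exact h5.trans (EuclideanDomain.gcd_dvd_right A P)

lemma dvd_of_kill [FiniteDimensional K₀ V] {f : End K₀ V}
    {P : K₀[X]} (hsep : f.charpoly.Separable) (hP : aeval f P = 0) : f.charpoly ∣ P :=
  dvd_of_roots (K := AlgebraicClosure K₀) hsep fun _ hz => kill hP hz

lemma card_le [IsAlgClosed K] {A q : K₀[X]} (hreg : Regular K A)
    {m : ℕ} (hm : 0 < m) (hq : q ≠ 0) (hr : ∀ y : K, aeval y A = 0 → aeval (y ^ m) q = 0) :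
    A.natDegree ≤ q.natDegree := by
  classical
  have hR0 : A.map (algebraMap K₀ K) ≠ 0 := (Polynomial.map_ne_zero hreg.sep.ne_zero)
  have hq0 : q.map (algebraMap K₀ K) ≠ 0 := (Polynomial.map_ne_zero hq)
  have h4 : (A.map (algebraMap K₀ K)).roots.toFinset.card = A.natDegree := by
    rw [Multiset.toFinset_card_of_nodup, splits_iff_card_roots.1 (IsAlgClosed.splits _),
      natDegree_map]
    exact nodup_roots (hreg.sep.map)
  have h5 : (A.map (algebraMap K₀ K)).roots.toFinset.card
      ≤ (q.map (algebraMap K₀ K)).roots.toFinset.card := by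
    refine Finset.card_le_card_of_injOn (fun y => y ^ m) ?_ ?_
    · intro y hy
      rw [Finset.mem_coe, Multiset.mem_toFinset, mem_roots hR0, IsRoot.def, eval_map_algebraMap] at hy
      rw [Finset.mem_coe, Multiset.mem_toFinset, mem_roots hq0, IsRoot.def, eval_map_algebraMap]
      exact hr y hy
    · intro y hy y' hy' h
      rw [Finset.mem_coe, Multiset.mem_toFinset, mem_roots hR0, IsRoot.def, eval_map_algebraMap] at hy hy'
      exact hreg.ratio y y' hy hy' m hm h
  rw [h4] at h5
  refine h5.trans ((Multiset.toFinset_card_le _).trans ?_)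
  exact (card_roots' _).trans natDegree_map_le

/-- A regular map is a polynomial in each of its positive powers. -/
theorem gen [IsAlgClosed K] [FiniteDimensional K₀ V] {f : End K₀ V} (hreg : Regular K f.charpoly)
    {n : ℕ} (hn : 0 < n) : ∃ p : K₀[X], aeval (f ^ n) p = f := by
  classical
  set N := f.charpoly.natDegree with hN
  let Φ : degreeLT K₀ N →ₗ[K₀] End K₀ V :=
    (aeval (f ^ n)).toLinearMap.comp (degreeLT K₀ N).subtype
  let Ψ : degreeLT K₀ N →ₗ[K₀] End K₀ V :=
    (aeval f).toLinearMap.comp (degreeLT K₀ N).subtype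
  have hΨ : ∀ Q : K₀[X], aeval f Q ∈ LinearMap.range Ψ := by
    intro Q
    have hmon := LinearMap.charpoly_monic f
    refine ⟨⟨Q %ₘ f.charpoly, ?_⟩, ?_⟩
    · rw [mem_degreeLT, hN, ← degree_eq_natDegree hmon.ne_zero]
      exact degree_modByMonic_lt _ hmon
    · change aeval f (Q %ₘ f.charpoly) = aeval f Q
      conv_rhs => rw [← modByMonic_add_div Q f.charpoly]
      rw [map_add, map_mul, LinearMap.aeval_self_charpoly, zero_mul, add_zero]
  have hinj : Function.Injective Φ := by
    rw [injective_iff_map_eq_zero]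
    rintro ⟨P, hP⟩ h0
    have h1 : aeval (f ^ n) P = 0 := h0
    have h2 : aeval f (expand K₀ n P) = 0 := by rw [expand_aeval, h1]
    by_contra hne
    have hP0 : P ≠ 0 := fun h => hne (Subtype.ext h)
    have h3 := card_le hreg hn hP0 (fun y hy => by
      rw [← expand_aeval]
      exact kill h2 hy)
    rw [mem_degreeLT, degree_eq_natDegree hP0, Nat.cast_lt] at hP
    omega
  have hle : LinearMap.range Φ ≤ LinearMap.range Ψ := by
    rintro _ ⟨⟨P, hP⟩, rfl⟩
    change aeval (f ^ n) P ∈ _
    rw [← expand_aeval]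
    exact hΨ _
  have heq : LinearMap.range Φ = LinearMap.range Ψ := by
    refine Submodule.eq_of_le_of_finrank_le hle ?_
    rw [LinearMap.finrank_range_of_inj hinj]
    exact LinearMap.finrank_range_le Ψ
  have hf : f ∈ LinearMap.range Φ := by
    rw [heq]
    have := hΨ X
    rwa [aeval_X] at this
  obtain ⟨⟨p, hp⟩, h⟩ := hf
  exact ⟨p, h⟩

end

end Pool.Agent.T6.H77.MS
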