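import Pool.Agent.T6.H77.MS.Ads

/-!
# Transfer of rational polynomial conditions, components
-/

set_option autoImplicit false
set_option linter.unusedSectionVars false
set_option linter.style.haveILetI false

open Matrix Filter Topology
open Pool.Agent.W528.ZC Pool.Agent.Y95.MT

namespace Pool.Agent.T6.H77.MS

noncomputable section

variable {N : ℕ}

/-- a finitely generated subring of a field of characteristic zero maps to every algebraically
closed field of characteristic zero -/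
theorem exists_algHom {F F' : Type} [Field F] [Algebra ℚ F] [Field F'] [Algebra ℚ F']
    [IsAlgClosed F'] (s : Finset F) : Nonempty (Algebra.adjoin ℚ (s : Set F) →ₐ[ℚ] F') := by
  haveI : Algebra.FiniteType ℚ (Algebra.adjoin ℚ (s : Set F)) :=
    (Subalgebra.fg_iff_finiteType _).1 (Subalgebra.fg_adjoin_finset s)
  obtain ⟨𝔪, h𝔪⟩ := Ideal.exists_maximal (Algebra.adjoin ℚ (s : Set F))
  letI : Field (Algebra.adjoin ℚ (s : Set F) ⧸ 𝔪) := Ideal.Quotient.field 𝔪
  haveI : Algebra.FiniteType ℚ (Algebra.adjoin ℚ (s : Set F) ⧸ 𝔪) :=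
    Algebra.FiniteType.of_surjective (Ideal.Quotient.mkₐ ℚ 𝔪) Ideal.Quotient.mk_surjective
  haveI : Module.Finite ℚ (Algebra.adjoin ℚ (s : Set F) ⧸ 𝔪) :=
    finite_of_finite_type_of_isJacobsonRing ℚ _
  haveI : Algebra.IsAlgebraic ℚ (Algebra.adjoin ℚ (s : Set F) ⧸ 𝔪) :=
    Algebra.IsAlgebraic.of_finite ℚ _
  exact ⟨(IsAlgClosed.lift : (Algebra.adjoin ℚ (s : Set F) ⧸ 𝔪) →ₐ[ℚ] F').comp
    (Ideal.Quotient.mkₐ ℚ 𝔪)⟩

/-- a matrix over a field of characteristic zero has a specialisation over every algebraically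
closed field of characteristic zero which satisfies all its rational polynomial relations -/
theorem exists_point {F F' : Type} [Field F] [Algebra ℚ F] [Field F'] [Algebra ℚ F']
    [IsAlgClosed F'] (g : Matrix (Fin N) (Fin N) F) :
    ∃ g' : Matrix (Fin N) (Fin N) F', ∀ f : MvPolynomial (Fin N × Fin N) ℚ,
      MvPolynomial.aeval (fun q => g q.1 q.2) f = 0 →
        MvPolynomial.aeval (fun q => g' q.1 q.2) f = 0 := by
  classical
  let s : Finset F := Finset.univ.image fun q : Fin N × Fin N => g q.1 q.2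
  obtain ⟨ψ⟩ := exists_algHom (F := F) (F' := F') s
  let a : Fin N × Fin N → Algebra.adjoin ℚ (s : Set F) := fun q =>
    ⟨g q.1 q.2, Algebra.subset_adjoin (Finset.mem_coe.2 (Finset.mem_image_of_mem _
      (Finset.mem_univ q)))⟩
  refine ⟨Matrix.of fun i j => ψ (a (i, j)), fun f hf => ?_⟩
  have h1 : (Algebra.adjoin ℚ (s : Set F)).val (MvPolynomial.aeval a f) =
      MvPolynomial.aeval (fun q => g q.1 q.2) f :=
    MvPolynomial.comp_aeval_apply a (Algebra.adjoin ℚ (s : Set F)).val f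
  have h2 : MvPolynomial.aeval a f = 0 := by
    apply Subtype.val_injective
    show (Algebra.adjoin ℚ (s : Set F)).val (MvPolynomial.aeval a f) = 0
    rw [h1, hf]
  have h3 : ψ (MvPolynomial.aeval a f) =
      MvPolynomial.aeval (fun q : Fin N × Fin N => ψ (a q)) f :=
    MvPolynomial.comp_aeval_apply a ψ f
  rw [h2, map_zero] at h3
  exact h3.symm

/-- the same with one polynomial which does not vanish -/
theorem exists_point_ne {F F' : Type} [Field F] [Algebra ℚ F] [Field F'] [Algebra ℚ F']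
    [IsAlgClosed F'] (g : Matrix (Fin N) (Fin N) F) {c : MvPolynomial (Fin N × Fin N) ℚ}
    (hc : MvPolynomial.aeval (fun q => g q.1 q.2) c ≠ 0) :
    ∃ g' : Matrix (Fin N) (Fin N) F', (∀ f : MvPolynomial (Fin N × Fin N) ℚ,
      MvPolynomial.aeval (fun q => g q.1 q.2) f = 0 →
        MvPolynomial.aeval (fun q => g' q.1 q.2) f = 0) ∧
      MvPolynomial.aeval (fun q => g' q.1 q.2) c ≠ 0 := by
  classical
  obtain ⟨u, hu⟩ : ∃ u, u = MvPolynomial.aeval (fun q => g q.1 q.2) c := ⟨_, rfl⟩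
  obtain ⟨s, hs1, hs2⟩ : ∃ s : Finset F, (∀ q : Fin N × Fin N, g q.1 q.2 ∈ s) ∧ u⁻¹ ∈ s :=
    ⟨insert u⁻¹ (Finset.univ.image fun q : Fin N × Fin N => g q.1 q.2), fun q =>
      Finset.mem_insert_of_mem (Finset.mem_image_of_mem _ (Finset.mem_univ q)),
      Finset.mem_insert_self _ _⟩
  obtain ⟨ψ⟩ := exists_algHom (F := F) (F' := F') s
  let a : Fin N × Fin N → Algebra.adjoin ℚ (s : Set F) := fun q =>
    ⟨g q.1 q.2, Algebra.subset_adjoin (Finset.mem_coe.2 (hs1 q))⟩
  let d : Algebra.adjoin ℚ (s : Set F) := ⟨u⁻¹, Algebra.subset_adjoin (Finset.mem_coe.2 hs2)⟩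
  have hval : ∀ f : MvPolynomial (Fin N × Fin N) ℚ,
      (Algebra.adjoin ℚ (s : Set F)).val (MvPolynomial.aeval a f) =
        MvPolynomial.aeval (fun q => g q.1 q.2) f := fun f =>
    MvPolynomial.comp_aeval_apply a (Algebra.adjoin ℚ (s : Set F)).val f
  have hψ : ∀ f : MvPolynomial (Fin N × Fin N) ℚ, ψ (MvPolynomial.aeval a f) =
      MvPolynomial.aeval (fun q : Fin N × Fin N => ψ (a q)) f := fun f =>
    MvPolynomial.comp_aeval_apply a ψ f
  refine ⟨Matrix.of fun i j => ψ (a (i, j)), fun f hf => ?_, ?_⟩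
  · have h2 : MvPolynomial.aeval a f = 0 := by
      apply Subtype.val_injective
      show (Algebra.adjoin ℚ (s : Set F)).val (MvPolynomial.aeval a f) = 0
      rw [hval, hf]
    have h3 := hψ f
    rw [h2, map_zero] at h3
    exact h3.symm
  · have h1 : MvPolynomial.aeval a c * d = 1 := by
      apply Subtype.val_injective
      show (Algebra.adjoin ℚ (s : Set F)).val (MvPolynomial.aeval a c * d) = 1
      rw [map_mul, hval, ← hu]
      rw [← hu] at hc
      exact mul_inv_cancel₀ hc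
    have h2 := congrArg ψ h1
    rw [map_mul, hψ, map_one] at h2
    intro h3
    have h4 : MvPolynomial.aeval (fun q : Fin N × Fin N => ψ (a q)) c = 0 := h3
    rw [h4, zero_mul] at h2
    exact zero_ne_one h2

/-- the polynomials which define the isometries -/
def isoPol (φ : Matrix (Fin N) (Fin N) ℚ) (i j : Fin N) : MvPolynomial (Fin N × Fin N) ℚ :=
  ((gen ℚ N)ᵀ * φ.map (algebraMap ℚ (MvPolynomial (Fin N × Fin N) ℚ)) * gen ℚ N) i j -
    MvPolynomial.C (φ i j)

theorem isoPol_aeval {R : Type} [CommRing R] [Algebra ℚ R] (φ : Matrix (Fin N) (Fin N) ℚ)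
    (g : Matrix (Fin N) (Fin N) R) (i j : Fin N) :
    MvPolynomial.aeval (fun q => g q.1 q.2) (isoPol φ i j) =
      (gᵀ * φ.map (algebraMap ℚ R) * g) i j - φ.map (algebraMap ℚ R) i j := by
  unfold isoPol
  rw [map_sub, MvPolynomial.aeval_C]
  congr 1
  obtain ⟨Φ, hΦ⟩ : ∃ Φ, Φ = MvPolynomial.aeval (R := ℚ) (fun q : Fin N × Fin N => g q.1 q.2) :=
    ⟨_, rfl⟩
  have h1 : Φ.mapMatrix (gen ℚ N) = g := by rw [hΦ, gen_map]
  have h2 : Φ.mapMatrix ((gen ℚ N)ᵀ) = gᵀ := by
    rw [← h1]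
    rfl
  have h3 : Φ.mapMatrix (φ.map (algebraMap ℚ (MvPolynomial (Fin N × Fin N) ℚ))) =
      φ.map (algebraMap ℚ R) := by
    ext a b
    show Φ (algebraMap ℚ _ (φ a b)) = algebraMap ℚ R (φ a b)
    exact Φ.commutes _
  have h4 : Φ.mapMatrix ((gen ℚ N)ᵀ * φ.map (algebraMap ℚ (MvPolynomial (Fin N × Fin N) ℚ)) *
      gen ℚ N) = gᵀ * φ.map (algebraMap ℚ R) * g := by
    rw [map_mul, map_mul, h1, h2, h3]
  rw [← hΦ]
  exact congrFun (congrFun h4 i) j

theorem isoPol_iff {R : Type} [CommRing R] [Algebra ℚ R] (φ : Matrix (Fin N) (Fin N) ℚ)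
    (g : Matrix (Fin N) (Fin N) R) :
    gᵀ * φ.map (algebraMap ℚ R) * g = φ.map (algebraMap ℚ R) ↔
      ∀ i j, MvPolynomial.aeval (fun q => g q.1 q.2) (isoPol φ i j) = 0 := by
  constructor
  · intro h i j
    rw [isoPol_aeval, h, sub_self]
  · intro h
    ext i j
    have h1 := h i j
    rw [isoPol_aeval] at h1
    exact sub_eq_zero.1 h1

theorem gen_det {k R : Type} [Field k] [CommRing R] [Algebra k R] (g : Matrix (Fin N) (Fin N) R) :
    MvPolynomial.aeval (R := k) (fun q : Fin N × Fin N => g q.1 q.2) (gen k N).det = g.det := by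
  rw [AlgHom.map_det, gen_map]

/-- the closure is stable under the image -/
theorem inCl_mul {k K : Type} [Field k] [Field K] [Algebra k K] {Γ : Type} [Group Γ]
    {ρ : Γ →* Matrix (Fin N) (Fin N) k} (γ : Γ) {g : Matrix (Fin N) (Fin N) K}
    (hg : InCl ρ g) : InCl ρ ((ρ γ).map (algebraMap k K) * g) := by
  intro f hf
  have h1 := hg (Pool.Agent.W528.ZC.sub (ρ γ) 1 f) (by
    intro s
    show ev (ρ s) _ = 0
    rw [ev_sub, mul_one, ← map_mul]
    exact hf (γ * s))
  rw [← ev_map_aeval, sub_map_poly, ev_sub, Matrix.map_one _ (map_zero _) (map_one _),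
    mul_one, ev_map_aeval] at h1
  exact h1

/-- descent of the ground field -/
theorem inCl_of_map {k K : Type} [Field k] [Field K] [Algebra k K] {Γ : Type} [Group Γ]
    {ρ : Γ →* Matrix (Fin N) (Fin N) k} {g : Matrix (Fin N) (Fin N) k}
    (hg : InCl ρ (g.map (algebraMap k K))) : InCl ρ g := by
  intro f hf
  have h1 := hg f hf
  have h2 : MvPolynomial.aeval (fun q : Fin N × Fin N => (g.map (algebraMap k K)) q.1 q.2) f =
      algebraMap k K (MvPolynomial.aeval (fun q => g q.1 q.2) f) := by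
    have h3 := MvPolynomial.aeval_algebraMap_apply K (fun q : Fin N × Fin N => g q.1 q.2) f
    exact h3
  rw [h2] at h1
  exact (map_eq_zero _).1 h1

/-- the closure grows with the group -/
theorem inCl_comp {k R : Type} [Field k] [CommRing R] [Algebra k R] {Γ G : Type} [Group Γ]
    [Group G] {ρ : Γ →* Matrix (Fin N) (Fin N) k} {s : G →* Γ} {g : Matrix (Fin N) (Fin N) R}
    (hg : InCl (ρ.comp s) g) : InCl ρ g := fun f hf => hg f fun τ => hf (s τ)

theorem inCl_comp' {k R : Type} [Field k] [CommRing R] [Algebra k R] {Γ G : Type} [Group Γ]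
    [Group G] {ρ : Γ →* Matrix (Fin N) (Fin N) k} {s : G →* Γ}
    (hs : ∀ γ, ∃ τ, ρ (s τ) = ρ γ) {g : Matrix (Fin N) (Fin N) R}
    (hg : InCl ρ g) : InCl (ρ.comp s) g := by
  intro f hf
  refine hg f fun γ => ?_
  obtain ⟨τ, hτ⟩ := hs γ
  rw [← hτ]
  exact hf τ

end

end Pool.Agent.T6.H77.MS
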